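import Mathlib
import Pool.Agent.H621.Osc.Count

set_option autoImplicit false

/-!
# Spec: many cycles of the `3x+k` map for `k = 4^n - 3^n`

`T k x = x / 2` (`x` even), `(3 x + k) / 2` (`x` odd) is `Pool.Agent.H621.Osc.T` (file
`Pool/Agent/H621/Osc/Count.lean`, only Mathlib is imported there).

Let `k = 4^n - 3^n`, `n ≥ 1`. For a word `w : Fin (2 n) → Bool` with exactly `n` letters `true`, at the
positions `a_0 < ... < a_(n-1)`, put `C w = ∑ i, 3^(n-1-i) * 2^(a_i)` (`i < n`).

Paper proof.
(a) `T k (C w) = C (σ w)` where `σ` is the rotation `w_0 w_1 ... w_(2n-1) ↦ w_1 ... w_(2n-1) w_0`, and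
    `C w` is odd if and only if `w_0 = true`. Indeed, if `w_0 = false` then all `a_i ≥ 1`, so `C w` is even and
    halving shifts all positions by one. If `w_0 = true` then `C w = 3^(n-1) + ∑_{i ≥ 1} 3^(n-1-i) 2^(a_i)` is
    odd and `(3 C w + 4^n - 3^n) / 2 = 2^(2n-1) + ∑_{i ≥ 1} 3^(n-i) 2^(a_i - 1) = C (σ w)`.
    (A convenient definition, without lists of positions: for a list `w` put `c [] = 0`,
    `c (false :: w) = 2 c w`, `c (true :: w) = 3^(number of true in w) + 2 c w`; then
    `c (w ++ [b]) = ...` is proved by induction, and `C w = c w`.)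
(b) So `(T k)^[2n] (C w) = C w`, and `w ↦ C w` is injective, as the parities of the iterates of `C w` give `w`.
    There are `(2n choose n) = Nat.centralBinom n` words.
(c) `T k` permutes the set of the `C w`, all its orbits there have at most `2 n` elements. So there are at least
    `centralBinom n / (2 n)` different orbits (cycles).
(d) Each orbit has an element `≤ k`: otherwise `T k x < 2 x` for the odd and `T k x = x / 2` for the even `x` of
    the orbit; going `2n` steps around from `C w`, which has `n` odd and `n` even steps, gives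
    `C w < 2^n (1/2)^n C w`. So one can choose in each orbit an element `≤ k`; the set `R` of `lower_cycles`.
(e) For `lower_periodic`: let `u = x / k` for `x = C w` and its iterates. In an odd step
    `u' + 1 = (3/2) (u + 1)`; in an even step `u' + 1 = (u + 2) / 2 = (u + 1) (1/2) (u + 2) / (u + 1)`, and this
    is `≤ u + 1` always, and `≤ (u + 1) (101/200)` if `u ≥ 99`. Along the `2n` steps the product of the factors is
    `1`. If `N` of the `n` even steps start at `u < 99` (that is `x < 99 k`), then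
    `1 ≤ (3/2)^n (101/200)^(n - N)`, hence `(200/101)^(n-N) ≤ (3/2)^n`, which gives `n - N ≤ (3/5) n`, as
    `(200/101)^3 > (3/2)^5 = 7.59..`: `(200/101)^3 = 7.76..`. So at least `2n/5` of the `2n` iterates are
    `< 99 k`. Summing over all words `w` (the rotation `σ^j` is a bijection of the set of words for each `j < 2n`)
    `2n * #{w : C w < 99 k} ≥ (2n/5) * centralBinom n`.
-/

namespace Pool.Agent.H621.Near

open Pool.Agent.H621.Osc (T)

/-- at least `centralBinom n / (2 n)` cycles meet `[1, k]` -/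
def S_LowerCycles : Prop := ∀ n : ℕ, 1 ≤ n → ∃ R : Finset ℤ,
  (∀ x ∈ R, 1 ≤ x ∧ x ≤ 4 ^ n - 3 ^ n ∧ (T (4 ^ n - 3 ^ n))^[2 * n] x = x) ∧
  (∀ x ∈ R, ∀ y ∈ R, x ≠ y → ∀ i j : ℕ, (T (4 ^ n - 3 ^ n))^[i] x ≠ (T (4 ^ n - 3 ^ n))^[j] y) ∧
  Nat.centralBinom n ≤ 2 * n * R.card

/-- at least `centralBinom n / 5` periodic points are in `[1, 99 k]` -/
def S_LowerPeriodic : Prop := ∀ n : ℕ, 1 ≤ n → ∃ P : Finset ℤ,
  (∀ x ∈ P, 1 ≤ x ∧ x ≤ 99 * (4 ^ n - 3 ^ n) ∧ (T (4 ^ n - 3 ^ n))^[2 * n] x = x) ∧
  Nat.centralBinom n ≤ 5 * P.card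

end Pool.Agent.H621.Near
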