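import Mathlib
import Pool.Agent.H621.Near.SpecLower

set_option autoImplicit false

/-!
# Many cycles of the `3x+k` map for `k = 4^n - 3^n`
-/

namespace Pool.Agent.H872.Near

open Pool.Agent.H621.Osc (T T_odd T_even)
open Pool.Agent.H621.Near (S_LowerCycles S_LowerPeriodic)

/-- the starting point which belongs to a word of parities -/
def c : List Bool → ℤ
  | [] => 0
  | false :: w => 2 * c w
  | true :: w => 3 ^ (w.count true) + 2 * c w

theorem c_append_false (w : List Bool) : c (w ++ [false]) = c w := by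
  induction w with
  | nil => simp [c]
  | cons b w ih =>
    cases b
    · simp [c, ih]
    · simp [c, ih]

theorem c_append_true (w : List Bool) : c (w ++ [true]) = 3 * c w + 2 ^ w.length := by
  induction w with
  | nil => simp [c]
  | cons b w ih =>
    cases b
    · simp only [List.cons_append, c, ih, List.length_cons]; ring
    · simp only [List.cons_append, c, ih, List.length_cons, List.count_append, List.count_cons_self,
        List.count_nil]
      ring

theorem c_nonneg (w : List Bool) : 0 ≤ c w := by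
  induction w with
  | nil => simp [c]
  | cons b w ih =>
    cases b
    · simp only [c]; linarith
    · simp only [c]
      have : (0 : ℤ) ≤ 3 ^ (w.count true) := by positivity
      linarith

theorem c_pos (w : List Bool) (h : 0 < w.count true) : 0 < c w := by
  induction w with
  | nil => simp at h
  | cons b w ih =>
    cases b
    · have h' : 0 < w.count true := by simpa using h
      have := ih h'
      simp only [c]; linarith
    · simp only [c]
      have : (0 : ℤ) < 3 ^ (w.count true) := by positivity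
      have := c_nonneg w
      linarith

/-- the words of length `m` with `a` letters `true` -/
def W : ℕ → ℕ → Finset (List Bool)
  | 0, 0 => {[]}
  | 0, _ + 1 => ∅
  | m + 1, 0 => (W m 0).image (List.cons false)
  | m + 1, a + 1 => (W m a).image (List.cons true) ∪ (W m (a + 1)).image (List.cons false)

theorem mem_W (m a : ℕ) (l : List Bool) : l ∈ W m a ↔ l.length = m ∧ l.count true = a := by
  induction m generalizing a l with
  | zero =>
    cases a with
    | zero =>
      simp only [W, Finset.mem_singleton]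
      constructor
      · rintro rfl; simp
      · rintro ⟨h, _⟩; exact List.length_eq_zero_iff.1 h
    | succ a =>
      simp only [W, Finset.notMem_empty, false_iff]
      rintro ⟨h, h'⟩
      rw [List.length_eq_zero_iff.1 h] at h'
      simp at h'
  | succ m ih =>
    cases a with
    | zero =>
      simp only [W, Finset.mem_image, ih]
      constructor
      · rintro ⟨w, ⟨h1, h2⟩, rfl⟩
        simp [h1, h2]
      · rintro ⟨h1, h2⟩
        match l, h1, h2 with
        | false :: w, h1, h2 =>
          refine ⟨w, ⟨by simpa using h1, by simpa using h2⟩, rfl⟩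
        | true :: w, h1, h2 =>
          simp at h2
    | succ a =>
      simp only [W, Finset.mem_union, Finset.mem_image, ih]
      constructor
      · rintro (⟨w, ⟨h1, h2⟩, rfl⟩ | ⟨w, ⟨h1, h2⟩, rfl⟩)
        · simp [h1, h2]
        · simp [h1, h2]
      · rintro ⟨h1, h2⟩
        match l, h1, h2 with
        | false :: w, h1, h2 =>
          right
          refine ⟨w, ⟨by simpa using h1, by simpa using h2⟩, rfl⟩
        | true :: w, h1, h2 =>
          left
          refine ⟨w, ⟨by simpa using h1, by simpa using h2⟩, rfl⟩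

theorem card_W (m a : ℕ) : (W m a).card = m.choose a := by
  induction m generalizing a with
  | zero =>
    cases a with
    | zero => simp [W]
    | succ a => simp [W]
  | succ m ih =>
    cases a with
    | zero =>
      simp only [W]
      rw [Finset.card_image_of_injective _ (List.cons_injective), ih]
      simp
    | succ a =>
      simp only [W]
      rw [Finset.card_union_of_disjoint, Finset.card_image_of_injective _ (List.cons_injective),
        Finset.card_image_of_injective _ (List.cons_injective), ih, ih, Nat.choose_succ_succ]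
      rw [Finset.disjoint_left]
      intro x hx hx'
      simp only [Finset.mem_image] at hx hx'
      obtain ⟨y, _, rfl⟩ := hx
      obtain ⟨z, _, hz⟩ := hx'
      simp at hz

section
variable {n : ℕ}

theorem k_odd (hn : 1 ≤ n) : ((4 : ℤ) ^ n - 3 ^ n) % 2 = 1 := by
  have h1 : Even ((4 : ℤ) ^ n) := Even.pow_of_ne_zero (by decide) (by omega)
  have h2 : Odd ((3 : ℤ) ^ n) := Odd.pow (by decide)
  have := Even.sub_odd h1 h2
  exact Int.odd_iff.1 this

theorem k_pos (hn : 1 ≤ n) : 0 < ((4 : ℤ) ^ n - 3 ^ n) := by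
  have : (3 : ℤ) ^ n < 4 ^ n := pow_lt_pow_left₀ (by norm_num) (by norm_num) (by omega)
  linarith

theorem c_parity (w : List Bool) (b : Bool) : c (b :: w) % 2 = if b then 1 else 0 := by
  cases b
  · simp only [c]; simp
  · simp only [c]
    have h2 : Odd ((3 : ℤ) ^ (w.count true)) := Odd.pow (by decide)
    have := Int.odd_iff.1 h2
    simp only [if_true]
    omega

theorem T_c (hn : 1 ≤ n) (w : List Bool) (hw : w ∈ W (2 * n) n) :
    T (4 ^ n - 3 ^ n) (c w) = c (w.rotate 1) := by
  rw [mem_W] at hw
  obtain ⟨h1, h2⟩ := hw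
  match w, h1, h2 with
  | [], h1, h2 => simp at h1; omega
  | false :: w, h1, h2 =>
    have hr : (false :: w).rotate 1 = w ++ [false] := by simp
    rw [hr, c_append_false]
    have := T_even (k := 4 ^ n - 3 ^ n) (x := c (false :: w)) (by rw [c_parity]; simp)
    simp only [c] at this ⊢
    linarith
  | true :: w, h1, h2 =>
    have hr : (true :: w).rotate 1 = w ++ [true] := by simp
    rw [hr, c_append_true]
    have := T_odd (k := 4 ^ n - 3 ^ n) (x := c (true :: w)) (k_odd hn) (by rw [c_parity]; simp)
    have e1 : w.length + 1 = 2 * n := by simpa using h1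
    have e2 : w.count true + 1 = n := by simpa using h2
    have e3 : (4 : ℤ) ^ n = 2 * 2 ^ w.length := by
      have : (4 : ℤ) ^ n = 2 ^ (2 * n) := by rw [pow_mul]; norm_num
      rw [this, ← e1, pow_succ]; ring
    have e4 : (3 : ℤ) ^ n = 3 * 3 ^ (w.count true) := by
      conv_lhs => rw [← e2]
      rw [pow_succ]; ring
    have e5 : 2 * T (4 ^ n - 3 ^ n) (c (true :: w)) = 2 * (3 * c w + 2 ^ w.length) := by
      rw [this, e3, e4]
      simp only [c]
      ring
    linarith

theorem rotate_mem (m a i : ℕ) (w : List Bool) (hw : w ∈ W m a) : w.rotate i ∈ W m a := by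
  rw [mem_W] at hw ⊢
  refine ⟨by rw [List.length_rotate]; exact hw.1, ?_⟩
  rw [(List.rotate_perm w i).count_eq]; exact hw.2

theorem iter_c (hn : 1 ≤ n) (w : List Bool) (hw : w ∈ W (2 * n) n) (i : ℕ) :
    (T (4 ^ n - 3 ^ n))^[i] (c w) = c (w.rotate i) := by
  induction i with
  | zero => simp
  | succ i ih =>
    rw [Function.iterate_succ_apply', ih, T_c hn _ (rotate_mem _ _ _ _ hw), List.rotate_rotate]

theorem per_c (hn : 1 ≤ n) (w : List Bool) (hw : w ∈ W (2 * n) n) :
    (T (4 ^ n - 3 ^ n))^[2 * n] (c w) = c w := by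
  rw [iter_c hn w hw]
  have := ((mem_W _ _ _).1 hw).1
  conv_lhs => rw [← this]
  rw [List.rotate_length]

theorem parity_iter (hn : 1 ≤ n) (w : List Bool) (hw : w ∈ W (2 * n) n) (i : ℕ)
    (hi : i < w.length) :
    (T (4 ^ n - 3 ^ n))^[i] (c w) % 2 = if w[i] then 1 else 0 := by
  rw [iter_c hn w hw]
  have h1 : (w.rotate i).head? = w[i]? := List.head?_rotate hi
  rw [List.getElem?_eq_getElem hi] at h1
  obtain ⟨v, hv⟩ : ∃ v, w.rotate i = w[i] :: v := by
    cases hh : w.rotate i with
    | nil => rw [hh] at h1; simp at h1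
    | cons a v =>
      rw [hh] at h1
      simp only [List.head?_cons, Option.some.injEq] at h1
      exact ⟨v, by rw [h1]⟩
  rw [hv, c_parity]

theorem c_inj (hn : 1 ≤ n) : Set.InjOn c (W (2 * n) n : Set (List Bool)) := by
  intro w hw v hv h
  have hw1 := ((mem_W _ _ _).1 (Finset.mem_coe.1 hw)).1
  have hv1 := ((mem_W _ _ _).1 (Finset.mem_coe.1 hv)).1
  apply List.ext_getElem (by rw [hw1, hv1])
  intro i h1 h2
  have a1 := parity_iter hn w hw i h1
  have a2 := parity_iter hn v hv i h2
  rw [h, a2] at a1
  cases hb : w[i] <;> cases hb' : v[i] <;> simp [hb, hb'] at a1 ⊢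

/-- number of odd terms -/
theorem odd_count (hn : 1 ≤ n) (w : List Bool) (hw : w ∈ W (2 * n) n) :
    ((Finset.range (2 * n)).filter fun i => (T (4 ^ n - 3 ^ n))^[i] (c w) % 2 = 1).card = n := by
  obtain ⟨h1, h2⟩ := (mem_W _ _ _).1 hw
  have key : ∀ i, i ≤ 2 * n → ((Finset.range i).filter fun i =>
      (T (4 ^ n - 3 ^ n))^[i] (c w) % 2 = 1).card = (w.take i).count true := by
    intro i
    induction i with
    | zero => intro _; simp
    | succ i ih =>
      intro hi
      have hi' : i < w.length := by omega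
      rw [Finset.range_add_one, Finset.filter_insert, List.take_succ_eq_append_getElem hi',
        List.count_append, ← ih (by omega), parity_iter hn w hw i hi']
      cases hb : w[i]
      · simp
      · simp
  rw [key (2 * n) le_rfl, ← h1, List.take_length, h2]

/-- going around, the smallest element of an orbit is at most `k` -/
theorem exists_le (hn : 1 ≤ n) (w : List Bool) (hw : w ∈ W (2 * n) n) :
    ∃ i < 2 * n, (T (4 ^ n - 3 ^ n))^[i] (c w) ≤ 4 ^ n - 3 ^ n := by
  by_contra hcon
  push Not at hcon
  set k : ℤ := 4 ^ n - 3 ^ n with hk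
  have hk1 : k % 2 = 1 := k_odd hn
  have hpos : ∀ i, 0 < (T k)^[i] (c w) := by
    intro i
    rw [iter_c hn w hw]
    apply c_pos
    have := ((mem_W _ _ _).1 (rotate_mem _ _ i _ hw)).2
    omega
  have key : ∀ i, i ≤ 2 * n → 2 ^ i * (T k)^[i] (c w) ≤
      4 ^ (((Finset.range i).filter fun i => (T k)^[i] (c w) % 2 = 1).card) * c w ∧
      (0 < ((Finset.range i).filter fun i => (T k)^[i] (c w) % 2 = 1).card →
      2 ^ i * (T k)^[i] (c w) <
      4 ^ (((Finset.range i).filter fun i => (T k)^[i] (c w) % 2 = 1).card) * c w) := by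
    intro i
    induction i with
    | zero => intro _; simp
    | succ i ih =>
      intro hi
      obtain ⟨h1, h2⟩ := ih (by omega)
      rw [Finset.range_add_one, Finset.filter_insert, Function.iterate_succ_apply']
      set y := (T k)^[i] (c w) with hy
      set N := ((Finset.range i).filter fun i => (T k)^[i] (c w) % 2 = 1).card with hN
      have hlt : k < y := hcon i (by omega)
      rcases Int.emod_two_eq_zero_or_one y with h | h
      · rw [if_neg (by omega)]
        have e := T_even (k := k) h
        have e2 : (2 : ℤ) ^ (i + 1) * T k y = 2 ^ i * y := by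
          rw [pow_succ, mul_assoc, e]
        rw [e2]
        exact ⟨h1, h2⟩
      · rw [if_pos h, Finset.card_insert_of_notMem (by simp)]
        have e := T_odd (k := k) hk1 h
        have e2 : (2 : ℤ) ^ (i + 1) * T k y < 4 * (2 ^ i * y) := by
          have : (2 : ℤ) ^ (i + 1) * T k y = 2 ^ i * (3 * y + k) := by
            rw [pow_succ, mul_assoc, e]
          rw [this]
          have h3 : (0 : ℤ) < 2 ^ i := by positivity
          nlinarith
        have e3 : (2 : ℤ) ^ (i + 1) * T k y < 4 ^ (N + 1) * c w := by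
          rw [pow_succ 4 N]; linarith
        exact ⟨e3.le, fun _ => e3⟩
  have h1 := (key (2 * n) le_rfl).2
  rw [odd_count hn w hw, per_c hn w hw] at h1
  have h2 := h1 (by omega)
  have e : (4 : ℤ) ^ n = 2 ^ (2 * n) := by rw [pow_mul]; norm_num
  rw [e] at h2
  exact lt_irrefl _ h2

/-- the orbit of a periodic point -/
def orb (k : ℤ) (m : ℕ) (x : ℤ) : Finset ℤ := (Finset.range m).image fun i => (T k)^[i] x

theorem mem_orb {k : ℤ} {m : ℕ} (hm : 0 < m) {x : ℤ} (hx : (T k)^[m] x = x) (y : ℤ) :
    y ∈ orb k m x ↔ ∃ i, (T k)^[i] x = y := by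
  unfold orb
  rw [Finset.mem_image]
  constructor
  · rintro ⟨i, _, h⟩; exact ⟨i, h⟩
  · rintro ⟨i, h⟩
    refine ⟨i % m, Finset.mem_range.2 (Nat.mod_lt _ hm), ?_⟩
    rw [← h]
    exact Function.IsPeriodicPt.iterate_mod_apply (f := T k) hx i

theorem per_iter {k : ℤ} {m : ℕ} {x : ℤ} (hx : (T k)^[m] x = x) (i : ℕ) :
    (T k)^[m] ((T k)^[i] x) = (T k)^[i] x := by
  rw [← Function.iterate_add_apply, Nat.add_comm, Function.iterate_add_apply, hx]

theorem orb_iter {k : ℤ} {m : ℕ} (hm : 0 < m) {x : ℤ} (hx : (T k)^[m] x = x) (j : ℕ) :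
    orb k m ((T k)^[j] x) = orb k m x := by
  ext y
  rw [mem_orb hm hx, mem_orb hm (per_iter hx j)]
  constructor
  · rintro ⟨i, h⟩
    exact ⟨i + j, by rw [Function.iterate_add_apply]; exact h⟩
  · rintro ⟨i, h⟩
    refine ⟨i + (m * j - j), ?_⟩
    rw [← Function.iterate_add_apply]
    have e1 : i + (m * j - j) + j = i + m * j := by
      have : j ≤ m * j := Nat.le_mul_of_pos_left j hm
      omega
    rw [e1, Function.iterate_add_apply]
    have : (T k)^[m * j] x = x := by
      have h2 : Function.IsPeriodicPt (T k) m x := hx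
      exact h2.mul_const j
    rw [this]; exact h

theorem orb_nonempty {k : ℤ} {m : ℕ} (hm : 0 < m) (x : ℤ) : (orb k m x).Nonempty := by
  refine ⟨x, ?_⟩
  unfold orb
  rw [Finset.mem_image]
  exact ⟨0, Finset.mem_range.2 hm, rfl⟩

/-- the smallest element of the orbit -/
noncomputable def rep (k : ℤ) (m : ℕ) (x : ℤ) : ℤ :=
  if h : (orb k m x).Nonempty then (orb k m x).min' h else x

theorem rep_mem {k : ℤ} {m : ℕ} (hm : 0 < m) (x : ℤ) : rep k m x ∈ orb k m x := by
  unfold rep
  rw [dif_pos (orb_nonempty hm x)]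
  exact Finset.min'_mem _ _

theorem rep_le {k : ℤ} {m : ℕ} (hm : 0 < m) (x y : ℤ) (hy : y ∈ orb k m x) :
    rep k m x ≤ y := by
  unfold rep
  rw [dif_pos (orb_nonempty hm x)]
  exact Finset.min'_le _ _ hy

theorem rep_congr {k : ℤ} {m : ℕ} (hm : 0 < m) (x y : ℤ) (h : orb k m x = orb k m y) :
    rep k m x = rep k m y := by
  apply le_antisymm
  · apply rep_le hm; rw [h]; exact rep_mem hm y
  · apply rep_le hm; rw [← h]; exact rep_mem hm x

end

theorem lowerCycles : S_LowerCycles := by
  intro n hn
  set k : ℤ := 4 ^ n - 3 ^ n with hk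
  have hm : 0 < 2 * n := by omega
  set X : Finset ℤ := (W (2 * n) n).image c with hX
  have hXper : ∀ x ∈ X, (T k)^[2 * n] x = x := by
    intro x hx
    obtain ⟨w, hw, rfl⟩ := Finset.mem_image.1 hx
    exact per_c hn w hw
  have hXcard : X.card = Nat.centralBinom n := by
    rw [hX, Finset.card_image_of_injOn (c_inj hn), card_W, Nat.centralBinom]
  have hXit : ∀ x ∈ X, ∀ i, (T k)^[i] x ∈ X := by
    intro x hx i
    obtain ⟨w, hw, rfl⟩ := Finset.mem_image.1 hx
    rw [iter_c hn w hw]
    exact Finset.mem_image_of_mem _ (rotate_mem _ _ _ _ hw)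
  have hXpos : ∀ x ∈ X, 1 ≤ x := by
    intro x hx
    obtain ⟨w, hw, rfl⟩ := Finset.mem_image.1 hx
    have := c_pos w (by have := ((mem_W _ _ _).1 hw).2; omega)
    omega
  have hrepit : ∀ x ∈ X, ∃ i, (T k)^[i] x = rep k (2 * n) x := fun x hx =>
    (mem_orb hm (hXper x hx) _).1 (rep_mem hm x)
  have hreprep : ∀ x ∈ X, rep k (2 * n) (rep k (2 * n) x) = rep k (2 * n) x := by
    intro x hx
    obtain ⟨i, hi⟩ := hrepit x hx
    apply rep_congr hm
    rw [← hi]
    exact orb_iter hm (hXper x hx) i
  refine ⟨X.image (rep k (2 * n)), ?_, ?_, ?_⟩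
  · intro y hy
    obtain ⟨x, hx, rfl⟩ := Finset.mem_image.1 hy
    obtain ⟨i, hi⟩ := hrepit x hx
    refine ⟨?_, ?_, ?_⟩
    · rw [← hi]; exact hXpos _ (hXit x hx i)
    · obtain ⟨w, hw, rfl⟩ := Finset.mem_image.1 hx
      obtain ⟨j, hj, hle⟩ := exists_le hn w hw
      exact (rep_le hm _ _ ((mem_orb hm (hXper _ hx) _).2 ⟨j, rfl⟩)).trans hle
    · rw [← hi]; exact per_iter (hXper x hx) i
  · intro y hy z hz hne i j h
    apply hne
    obtain ⟨x, hx, rfl⟩ := Finset.mem_image.1 hy
    obtain ⟨x', hx', rfl⟩ := Finset.mem_image.1 hz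
    obtain ⟨a, ha⟩ := hrepit x hx
    obtain ⟨b, hb⟩ := hrepit x' hx'
    rw [← hreprep x hx, ← hreprep x' hx']
    apply rep_congr hm
    have h1 : (T k)^[2 * n] (rep k (2 * n) x) = rep k (2 * n) x := by
      rw [← ha]; exact per_iter (hXper x hx) a
    have h2 : (T k)^[2 * n] (rep k (2 * n) x') = rep k (2 * n) x' := by
      rw [← hb]; exact per_iter (hXper x' hx') b
    rw [← orb_iter hm h1 i, ← orb_iter hm h2 j]
    exact congrArg _ h
  · rw [← hXcard]
    apply Finset.card_le_mul_card_image
    intro y hy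
    obtain ⟨x0, hx0, rfl⟩ := Finset.mem_image.1 hy
    have hsub : (X.filter fun x => rep k (2 * n) x = rep k (2 * n) x0) ⊆
        orb k (2 * n) (rep k (2 * n) x0) := by
      intro x hx
      obtain ⟨hx1, hx2⟩ := Finset.mem_filter.1 hx
      rw [← hx2]
      obtain ⟨i, hi⟩ := hrepit x hx1
      rw [← hi, orb_iter hm (hXper x hx1)]
      exact (mem_orb hm (hXper x hx1) _).2 ⟨0, rfl⟩
    refine (Finset.card_le_card hsub).trans ?_
    refine Finset.card_image_le.trans ?_
    simp

/-- along an orbit many points are smaller than `99 k` -/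
theorem many_small (n : ℕ) (hn : 1 ≤ n) (w : List Bool) (hw : w ∈ W (2 * n) n) :
    2 * n ≤ 5 * ((Finset.range (2 * n)).filter fun i =>
      (T (4 ^ n - 3 ^ n))^[i] (c w) ≤ 99 * (4 ^ n - 3 ^ n)).card := by
  set k : ℤ := 4 ^ n - 3 ^ n with hk
  have hk1 : k % 2 = 1 := k_odd hn
  have hk0 : 0 < k := k_pos hn
  have hpos : ∀ i, 0 < (T k)^[i] (c w) := by
    intro i
    rw [iter_c hn w hw]
    apply c_pos
    have := ((mem_W _ _ _).1 (rotate_mem _ _ i _ hw)).2
    omega
  set O : ℕ → ℕ := fun i => ((Finset.range i).filter fun i => (T k)^[i] (c w) % 2 = 1).card with hO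
  set E : ℕ → ℕ := fun i => ((Finset.range i).filter fun i => ¬ ((T k)^[i] (c w) % 2 = 1) ∧
    ¬ ((T k)^[i] (c w) ≤ 99 * k)).card with hE
  set y : ℕ → ℚ := fun i => (((T k)^[i] (c w) + k : ℤ) : ℚ) with hy
  have hypos : ∀ i, 0 < y i := by
    intro i
    have := hpos i
    have h2 : 0 < (T k)^[i] (c w) + k := by linarith
    simp only [hy]
    exact_mod_cast h2
  have key : ∀ i, y i ≤ y 0 * (3 / 2) ^ (O i) * (101 / 200) ^ (E i) := by
    intro i
    induction i with
    | zero => simp [hO, hE]
    | succ i ih =>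
      have hi := hpos i
      have hy0 := hypos 0
      have hyi := hypos i
      rcases Int.emod_two_eq_zero_or_one ((T k)^[i] (c w)) with h | h
      · have e := T_even (k := k) h
        have hO1 : O (i + 1) = O i := by
          simp only [hO]
          rw [Finset.range_add_one, Finset.filter_insert, if_neg (by omega)]
        rw [hO1]
        by_cases hb : (T k)^[i] (c w) ≤ 99 * k
        · have hE1 : E (i + 1) = E i := by
            simp only [hE]
            rw [Finset.range_add_one, Finset.filter_insert, if_neg (by tauto)]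
          rw [hE1]
          refine le_trans ?_ ih
          simp only [hy]
          rw [Function.iterate_succ_apply']
          have : T k ((T k)^[i] (c w)) + k ≤ (T k)^[i] (c w) + k := by linarith
          exact_mod_cast this
        · have hE1 : E (i + 1) = E i + 1 := by
            simp only [hE]
            rw [Finset.range_add_one, Finset.filter_insert, if_pos ⟨by omega, hb⟩,
              Finset.card_insert_of_notMem (by simp)]
          rw [hE1, pow_succ, ← mul_assoc]
          have h3 : y (i + 1) ≤ y i * (101 / 200) := by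
            simp only [hy]
            rw [Function.iterate_succ_apply']
            have : 200 * (T k ((T k)^[i] (c w)) + k) ≤ ((T k)^[i] (c w) + k) * 101 := by
              push Not at hb
              linarith
            have h4 : (200 : ℚ) * ((T k ((T k)^[i] (c w)) + k : ℤ) : ℚ) ≤
                (((T k)^[i] (c w) + k : ℤ) : ℚ) * 101 := by exact_mod_cast this
            linarith
          refine h3.trans ?_
          exact mul_le_mul_of_nonneg_right ih (by norm_num)
      · have e := T_odd (k := k) hk1 h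
        have hO1 : O (i + 1) = O i + 1 := by
          simp only [hO]
          rw [Finset.range_add_one, Finset.filter_insert, if_pos h,
            Finset.card_insert_of_notMem (by simp)]
        have hE1 : E (i + 1) = E i := by
          simp only [hE]
          rw [Finset.range_add_one, Finset.filter_insert, if_neg (by tauto)]
        rw [hO1, hE1]
        have h3 : y (i + 1) = y i * (3 / 2) := by
          simp only [hy]
          rw [Function.iterate_succ_apply']
          have : 2 * (T k ((T k)^[i] (c w)) + k) = ((T k)^[i] (c w) + k) * 3 := by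
            linarith
          have h4 : (2 : ℚ) * ((T k ((T k)^[i] (c w)) + k : ℤ) : ℚ) =
              (((T k)^[i] (c w) + k : ℤ) : ℚ) * 3 := by exact_mod_cast this
          linarith
        rw [h3]
        calc y i * (3 / 2) ≤ (y 0 * (3 / 2) ^ (O i) * (101 / 200) ^ (E i)) * (3 / 2) :=
              mul_le_mul_of_nonneg_right ih (by norm_num)
          _ = y 0 * (3 / 2) ^ (O i + 1) * (101 / 200) ^ (E i) := by rw [pow_succ]; ring
  have hOn : O (2 * n) = n := odd_count hn w hw
  have h1 := key (2 * n)
  have hyn : y (2 * n) = y 0 := by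
    simp only [hy]
    rw [per_c hn w hw]
    rfl
  rw [hyn, hOn, mul_assoc] at h1
  have h2 : (1 : ℚ) ≤ (3 / 2) ^ n * (101 / 200) ^ (E (2 * n)) := by
    by_contra hcon
    push Not at hcon
    have := mul_lt_mul_of_pos_left hcon (hypos 0)
    linarith
  have h3 : 5 * E (2 * n) ≤ 3 * n := by
    by_contra hcon
    push Not at hcon
    have h4 : (1 : ℚ) ≤ ((3 / 2) ^ n * (101 / 200) ^ (E (2 * n))) ^ 5 := one_le_pow₀ h2
    have h5 : (((3 : ℚ) / 2) ^ n * (101 / 200) ^ (E (2 * n))) ^ 5 =
        ((3 / 2) ^ 5) ^ n * (101 / 200) ^ (5 * E (2 * n)) := by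
      rw [mul_pow, ← pow_mul, ← pow_mul, ← pow_mul]
      congr 2
      · ring
      · ring
    have h6 : ((101 : ℚ) / 200) ^ (5 * E (2 * n)) ≤ (101 / 200) ^ (3 * n + 1) :=
      pow_le_pow_of_le_one (by norm_num) (by norm_num) (by omega)
    have h7 : (((3 : ℚ) / 2) ^ 5) ^ n * (101 / 200) ^ (5 * E (2 * n)) ≤
        ((3 / 2) ^ 5) ^ n * (101 / 200) ^ (3 * n + 1) :=
      mul_le_mul_of_nonneg_left h6 (by positivity)
    have h8 : (((3 : ℚ) / 2) ^ 5) ^ n * (101 / 200) ^ (3 * n + 1) =
        ((3 / 2) ^ 5 * (101 / 200) ^ 3) ^ n * (101 / 200) := by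
      rw [mul_pow, ← pow_mul, ← pow_mul, pow_succ, pow_mul, pow_mul]
      ring
    have h9 : (((3 : ℚ) / 2) ^ 5 * (101 / 200) ^ 3) ^ n ≤ 1 :=
      pow_le_one₀ (by norm_num) (by norm_num)
    rw [h5] at h4
    rw [h8] at h7
    have h10 : (((3 : ℚ) / 2) ^ 5 * (101 / 200) ^ 3) ^ n * (101 / 200) ≤ 1 * (101 / 200) :=
      mul_le_mul_of_nonneg_right h9 (by norm_num)
    linarith
  have h4 : 2 * n ≤ O (2 * n) + E (2 * n) + ((Finset.range (2 * n)).filter fun i =>
      (T k)^[i] (c w) ≤ 99 * k).card := by
    have hsub : Finset.range (2 * n) ⊆ ((Finset.range (2 * n)).filter fun i =>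
        (T k)^[i] (c w) % 2 = 1) ∪ ((Finset.range (2 * n)).filter fun i =>
        ¬ ((T k)^[i] (c w) % 2 = 1) ∧ ¬ ((T k)^[i] (c w) ≤ 99 * k)) ∪
        ((Finset.range (2 * n)).filter fun i => (T k)^[i] (c w) ≤ 99 * k) := by
      intro i hi
      simp only [Finset.mem_union, Finset.mem_filter]
      tauto
    have h5 := Finset.card_le_card hsub
    rw [Finset.card_range] at h5
    refine h5.trans ?_
    refine (Finset.card_union_le _ _).trans ?_
    apply Nat.add_le_add_right
    exact Finset.card_union_le _ _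
  rw [hOn] at h4
  omega

theorem lowerPeriodic : S_LowerPeriodic := by
  intro n hn
  set k : ℤ := 4 ^ n - 3 ^ n with hk
  have hm : 0 < 2 * n := by omega
  refine ⟨((W (2 * n) n).filter fun w => c w ≤ 99 * k).image c, ?_, ?_⟩
  · intro x hx
    obtain ⟨w, hw, rfl⟩ := Finset.mem_image.1 hx
    obtain ⟨hw1, hw2⟩ := Finset.mem_filter.1 hw
    refine ⟨?_, hw2, per_c hn w hw1⟩
    have := c_pos w (by have := ((mem_W _ _ _).1 hw1).2; omega)
    omega
  · rw [Finset.card_image_of_injOn ((c_inj hn).mono (by
      intro x hx; exact (Finset.mem_filter.1 hx).1))]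
    have h1 : ∑ w ∈ W (2 * n) n, 2 * n ≤ ∑ w ∈ W (2 * n) n,
        5 * ((Finset.range (2 * n)).filter fun i => (T k)^[i] (c w) ≤ 99 * k).card :=
      Finset.sum_le_sum fun w hw => many_small n hn w hw
    rw [Finset.sum_const, card_W, smul_eq_mul, ← Finset.mul_sum] at h1
    have h2 : ∑ w ∈ W (2 * n) n, ((Finset.range (2 * n)).filter fun i =>
        (T k)^[i] (c w) ≤ 99 * k).card =
        ∑ i ∈ Finset.range (2 * n), ((W (2 * n) n).filter fun w => (T k)^[i] (c w) ≤ 99 * k).card := by
      simp only [Finset.card_filter]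
      exact Finset.sum_comm
    have h3 : ∀ i, ((W (2 * n) n).filter fun w => (T k)^[i] (c w) ≤ 99 * k).card ≤
        ((W (2 * n) n).filter fun w => c w ≤ 99 * k).card := by
      intro i
      apply Finset.card_le_card_of_injOn (fun w => w.rotate i)
      · intro w hw
        have hw' := Finset.mem_filter.1 (Finset.mem_coe.1 hw)
        apply Finset.mem_coe.2
        rw [Finset.mem_filter]
        refine ⟨rotate_mem _ _ _ _ hw'.1, ?_⟩
        rw [← iter_c hn w hw'.1]; exact hw'.2
      · intro w _ v _ h
        exact List.rotate_injective i h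
    have h4 : ∑ i ∈ Finset.range (2 * n), ((W (2 * n) n).filter fun w =>
        (T k)^[i] (c w) ≤ 99 * k).card ≤ ∑ i ∈ Finset.range (2 * n),
        ((W (2 * n) n).filter fun w => c w ≤ 99 * k).card :=
      Finset.sum_le_sum fun i _ => h3 i
    rw [Finset.sum_const, Finset.card_range, smul_eq_mul] at h4
    rw [h2] at h1
    have h5 : (2 * n) * (2 * n).choose n ≤
        (2 * n) * (5 * ((W (2 * n) n).filter fun w => c w ≤ 99 * k).card) := by
      calc (2 * n) * (2 * n).choose n = (2 * n).choose n * (2 * n) := by ring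
        _ ≤ 5 * ∑ i ∈ Finset.range (2 * n), ((W (2 * n) n).filter fun w =>
            (T k)^[i] (c w) ≤ 99 * k).card := h1
        _ ≤ 5 * (2 * n * ((W (2 * n) n).filter fun w => c w ≤ 99 * k).card) :=
            Nat.mul_le_mul_left 5 h4
        _ = _ := by ring
    exact Nat.le_of_mul_le_mul_left h5 hm

end Pool.Agent.H872.Near
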