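import Mathlib
import Pool.Agent.H621.Osc.Count
import Pool.Graph.R_pool_sql_team_seeded_3997aac3.Results.MP_7f88e4_nt.MeetingLaws

set_option autoImplicit false

/-!
Pairs `n`, `3^a n + k b` whose orbits under the `3x+k` map do not meet early.
-/

namespace Pool.Agent.H621.Near

open Pool.Agent.H621.Osc (T)

theorem T_eq_ML : Pool.Agent.Results.MP_7f88e4_nt.MeetingLaws.T = T := by
  funext k x; rfl

theorem apart_bound (a N : ℕ) : ∃ (t0 : ℕ) (C : ℝ), 0 ≤ C ∧ ∀ t L : ℕ, t0 ≤ t → t * 2 ^ t ≤ L →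
    ∀ k : ℤ, k % 2 = 1 → ∀ (M : ℤ) (A : Finset ℤ), (∀ n ∈ A, M ≤ n ∧ n < M + L) →
    (∀ n ∈ A, ∃ b : ℤ, |b| ≤ N ∧ (T k)^[t] n ≠ (T k)^[t] (3 ^ a * n + k * b)) →
    (A.card : ℝ) ≤ C * L / √(t : ℝ) := by
  have h := Pool.Agent.Results.MP_7f88e4_nt.MeetingLaws.result.2.2.1
  choose t1 ht1 using fun b : ℤ => h a b 0 1 le_rfl one_pos
  set S := Finset.Icc (-(N : ℤ)) N with hS
  set Cb : ℤ → ℝ := fun b => |2 / √Real.pi * Real.exp (-(0 : ℝ) ^ 2) *
    Pool.Agent.Results.MP_7f88e4_nt.MeetingLaws.c a b| + 1 with hCb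
  refine ⟨max 1 (S.sup t1), ∑ b ∈ S, Cb b, Finset.sum_nonneg fun b _ => by positivity, ?_⟩
  intro t L ht hL k hk M A hA hb
  have ht1' : 1 ≤ t := le_trans (le_max_left _ _) ht
  have htpos : (0 : ℝ) < √(t : ℝ) := Real.sqrt_pos.2 (by exact_mod_cast ht1')
  have hLpos : 0 < L := lt_of_lt_of_le (Nat.mul_pos ht1' (by positivity)) hL
  have hLr : (0 : ℝ) < L := by exact_mod_cast hLpos
  -- the bound for each `b`
  have key : ∀ b ∈ S, ((A.filter fun n => (T k)^[t] n ≠ (T k)^[t] (3 ^ a * n + k * b)).card : ℝ) ≤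
      Cb b * L / √(t : ℝ) := by
    intro b hbS
    have h1 := ht1 b t L (le_trans (Finset.le_sup hbS) (le_trans (le_max_right _ _) ht)) hL k hk M
    set ap := Pool.Agent.Results.MP_7f88e4_nt.MeetingLaws.apart k t a b 0 M L with hap
    have h2 : ((A.filter fun n => (T k)^[t] n ≠ (T k)^[t] (3 ^ a * n + k * b)).card : ℝ) ≤ ap := by
      have h3 : (A.filter fun n => (T k)^[t] n ≠ (T k)^[t] (3 ^ a * n + k * b)).card ≤ ap := by
        rw [hap]
        unfold Pool.Agent.Results.MP_7f88e4_nt.MeetingLaws.apart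
        rw [← Set.ncard_coe_finset]
        apply Set.ncard_le_ncard
        · intro n hn
          rw [Finset.mem_coe, Finset.mem_filter] at hn
          refine ⟨(hA n hn.1).1, (hA n hn.1).2, ?_, ?_⟩
          · rw [T_eq_ML]; exact hn.2
          · rw [zero_mul]; exact abs_nonneg _
        · apply Set.Finite.subset (Set.finite_Ico M (M + L))
          intro n hn
          exact ⟨hn.1, hn.2.1⟩
      exact_mod_cast h3
    refine h2.trans ?_
    have h4 : √(t : ℝ) * ap / L ≤ Cb b := by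
      have h5 := (abs_le.1 h1).2
      have h6 := le_abs_self (2 / √Real.pi * Real.exp (-(0 : ℝ) ^ 2) *
        Pool.Agent.Results.MP_7f88e4_nt.MeetingLaws.c a b)
      rw [hCb]
      simp only
      linarith
    rw [le_div_iff₀ htpos]
    rw [div_le_iff₀ hLr] at h4
    linarith
  have hsub : A ⊆ S.biUnion fun b => A.filter fun n => (T k)^[t] n ≠ (T k)^[t] (3 ^ a * n + k * b) := by
    intro n hn
    obtain ⟨b, hb1, hb2⟩ := hb n hn
    rw [Finset.mem_biUnion]
    refine ⟨b, ?_, Finset.mem_filter.2 ⟨hn, hb2⟩⟩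
    rw [hS, Finset.mem_Icc]
    exact abs_le.1 hb1
  have h1 : (A.card : ℝ) ≤ ∑ b ∈ S,
      ((A.filter fun n => (T k)^[t] n ≠ (T k)^[t] (3 ^ a * n + k * b)).card : ℝ) := by
    have := (Finset.card_le_card hsub).trans Finset.card_biUnion_le
    exact_mod_cast this
  refine h1.trans ?_
  rw [Finset.sum_mul, Finset.sum_div]
  exact Finset.sum_le_sum key

/-- the integers of `[-B |k|, B |k|]` which do not meet their residue modulo `k` -/
noncomputable def bad1 (k : ℤ) (B t : ℕ) : Finset ℤ :=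
  (Finset.Icc (-(B * |k|)) (B * |k|)).filter fun n => (T k)^[t] n ≠ (T k)^[t] (n % |k|)

/-- the residues modulo `k` which do not meet three times themselves -/
noncomputable def bad2 (k : ℤ) (t : ℕ) : Finset ℤ :=
  (Finset.Ico 0 |k|).filter fun n => (T k)^[t] n ≠ (T k)^[t] (3 * n % |k|)

theorem emod_form (k n : ℤ) : ∃ b : ℤ, |b| = |(n / |k| : ℤ)| ∧ n % |k| = n + k * b := by
  rcases le_total 0 k with h | h
  · refine ⟨-(n / |k|), abs_neg _, ?_⟩
    have h1 := Int.emod_add_mul_ediv n |k|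
    rw [abs_of_nonneg h] at h1 ⊢
    linarith
  · refine ⟨n / |k|, rfl, ?_⟩
    have h1 := Int.emod_add_mul_ediv n |k|
    rw [abs_of_nonpos h] at h1 ⊢
    linarith

theorem bad_bound (B : ℕ) : ∃ (t0 : ℕ) (C : ℝ), 0 ≤ C ∧ ∀ t : ℕ, t0 ≤ t → ∀ k : ℤ, k % 2 = 1 →
    ((t * 2 ^ t : ℕ) : ℤ) ≤ |k| →
    ((bad1 k B t).card : ℝ) + (bad2 k t).card ≤ C * |(k : ℝ)| / √(t : ℝ) := by
  obtain ⟨t1, C1, hC1, h1⟩ := apart_bound 0 B
  obtain ⟨t2, C2, hC2, h2⟩ := apart_bound 1 2
  refine ⟨max t1 t2, C1 * (2 * B + 1) + C2, by positivity, ?_⟩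
  intro t ht k hk hkt
  have hk0 : k ≠ 0 := by rintro rfl; exact absurd hk (by decide)
  have hK : 0 < |k| := abs_pos.2 hk0
  obtain ⟨K, hKe⟩ : ∃ K : ℕ, (K : ℤ) = |k| := ⟨k.natAbs, Int.natCast_natAbs k⟩
  have hKr : (K : ℝ) = |(k : ℝ)| := by
    have : ((K : ℤ) : ℝ) = ((|k| : ℤ) : ℝ) := by rw [hKe]
    push_cast at this
    exact this
  have hK1 : 1 ≤ K := by
    have : (0 : ℤ) < K := by rw [hKe]; exact hK
    exact_mod_cast this
  have hKt : t * 2 ^ t ≤ K := by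
    have : ((t * 2 ^ t : ℕ) : ℤ) ≤ K := by rw [hKe]; exact hkt
    exact_mod_cast this
  have e1 := h1 t ((2 * B + 1) * K) (le_trans (le_max_left _ _) ht) (by nlinarith) k hk (-(B * |k|))
    (bad1 k B t) (by
      intro n hn
      rw [bad1, Finset.mem_filter, Finset.mem_Icc] at hn
      refine ⟨hn.1.1, ?_⟩
      have : (((2 * B + 1) * K : ℕ) : ℤ) = 2 * (B * |k|) + |k| := by push_cast; rw [hKe]; ring
      rw [this]
      linarith [hn.1.2]) (by
      intro n hn
      rw [bad1, Finset.mem_filter, Finset.mem_Icc] at hn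
      obtain ⟨b, hb1, hb2⟩ := emod_form k n
      refine ⟨b, ?_, ?_⟩
      · rw [hb1, abs_le]
        constructor
        · rw [Int.le_ediv_iff_mul_le hK]; linarith [hn.1.1]
        · have : n / |k| ≤ (B * |k|) / |k| := Int.ediv_le_ediv hK hn.1.2
          rwa [Int.mul_ediv_cancel _ hK.ne'] at this
      · rw [pow_zero, one_mul, ← hb2]; exact hn.2)
  have e2 := h2 t K (le_trans (le_max_right _ _) ht) hKt k hk 0 (bad2 k t) (by
      intro n hn
      rw [bad2, Finset.mem_filter, Finset.mem_Ico] at hn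
      refine ⟨hn.1.1, ?_⟩
      rw [hKe, zero_add]; exact hn.1.2) (by
      intro n hn
      rw [bad2, Finset.mem_filter, Finset.mem_Ico] at hn
      obtain ⟨b, hb1, hb2⟩ := emod_form k (3 * n)
      refine ⟨b, ?_, ?_⟩
      · rw [hb1, abs_of_nonneg (Int.ediv_nonneg (by linarith [hn.1.1]) hK.le)]
        have : 3 * n / |k| < 3 := by
          rw [Int.ediv_lt_iff_lt_mul hK]; linarith [hn.1.2]
        push_cast
        omega
      · rw [pow_one, ← hb2]; exact hn.2)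
  have htp : (0 : ℝ) ≤ √(t : ℝ) := Real.sqrt_nonneg _
  calc ((bad1 k B t).card : ℝ) + (bad2 k t).card
      ≤ C1 * ((2 * B + 1) * K : ℕ) / √(t : ℝ) + C2 * K / √(t : ℝ) := add_le_add e1 e2
    _ = (C1 * (2 * B + 1) + C2) * |(k : ℝ)| / √(t : ℝ) := by rw [← hKr]; push_cast; ring

end Pool.Agent.H621.Near
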