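import Mathlib

set_option autoImplicit false

/-!
The double counting.
-/

namespace Pool.Agent.H621.Near

theorem charge {α β γ : Type} [DecidableEq α] [DecidableEq β] (Y : Finset α) (V : Finset β)
    (π : β → β) (hπ : Set.InjOn π V) (hπV : ∀ v ∈ V, π v ∈ V) (ρ : α → β) (hρ : ∀ y ∈ Y, ρ y ∈ V)
    (f : α → γ) (g : β → γ) (Bad1 : Finset α) (Bad2 : Finset β)
    (hb1 : ∀ y ∈ Y, y ∉ Bad1 → f y = g (ρ y)) (hb2 : ∀ v ∈ V, v ∉ Bad2 → g v = g (π v)) (h : ℕ)
    (P : ∀ y ∈ Y, ∀ y' ∈ Y, y ≠ y' → f y = f y' → ∀ j < h, π^[j] (ρ y) ≠ ρ y')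
    (Q : ∀ y ∈ Y, Set.InjOn (fun j => π^[j] (ρ y)) (Set.Iio h)) :
    h * Y.card ≤ V.card + h * (Bad1.card + Bad2.card) := by
  classical
  have hiterV : ∀ v ∈ V, ∀ j : ℕ, π^[j] v ∈ V := by
    intro v hv j
    induction j with
    | zero => exact hv
    | succ j ih => rw [Function.iterate_succ_apply']; exact hπV _ ih
  have hiterinj : ∀ (j : ℕ), ∀ u ∈ V, ∀ v ∈ V, π^[j] u = π^[j] v → u = v := by
    intro j
    induction j with
    | zero => intro u _ v _ h; exact h
    | succ j ih =>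
      intro u hu v hv h
      rw [Function.iterate_succ_apply, Function.iterate_succ_apply] at h
      exact hπ hu hv (ih _ (hπV u hu) _ (hπV v hv) h)
  -- collisions are excluded
  have hcoll : ∀ y ∈ Y, ∀ y' ∈ Y, y ≠ y' → f y = f y' → ∀ j < h, ∀ j' < h,
      π^[j] (ρ y) ≠ π^[j'] (ρ y') := by
    intro y hy y' hy' hne hf j hj j' hj' heq
    rcases le_total j' j with hle | hle
    · have e : j = j' + (j - j') := by omega
      rw [e, Function.iterate_add_apply] at heq
      have h1 := hiterinj j' _ (hiterV _ (hρ y hy) _) _ (hρ y' hy') heq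
      exact P y hy y' hy' hne hf (j - j') (by omega) h1
    · have e : j' = j + (j' - j) := by omega
      rw [e, Function.iterate_add_apply] at heq
      have h1 := hiterinj j _ (hρ y hy) _ (hiterV _ (hρ y' hy') _) heq
      exact P y' hy' y hy hne.symm hf.symm (j' - j) (by omega) h1.symm
  set Y1 := Y.filter fun y => y ∈ Bad1 with hY1
  set Y2 := Y.filter fun y => y ∉ Bad1 ∧ ∃ j < h, π^[j] (ρ y) ∈ Bad2 with hY2
  set Y3 := Y.filter fun y => y ∉ Bad1 ∧ ¬ ∃ j < h, π^[j] (ρ y) ∈ Bad2 with hY3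
  have hsub : Y ⊆ Y1 ∪ (Y2 ∪ Y3) := by
    intro y hy
    rw [Finset.mem_union, Finset.mem_union, hY1, hY2, hY3, Finset.mem_filter, Finset.mem_filter,
      Finset.mem_filter]
    by_cases h1 : y ∈ Bad1
    · left; exact ⟨hy, h1⟩
    · right
      by_cases h2 : ∃ j < h, π^[j] (ρ y) ∈ Bad2
      · left; exact ⟨hy, h1, h2⟩
      · right; exact ⟨hy, h1, h2⟩
  have hcard : Y.card ≤ Y1.card + (Y2.card + Y3.card) :=
    (Finset.card_le_card hsub).trans ((Finset.card_union_le _ _).trans
      (Nat.add_le_add_left (Finset.card_union_le _ _) _))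
  have c1 : Y1.card ≤ Bad1.card := by
    apply Finset.card_le_card
    intro y hy
    exact (Finset.mem_filter.1 hy).2
  -- values along the path before the first bad point
  have hpath : ∀ y ∈ Y, y ∉ Bad1 → ∀ j : ℕ, (∀ i < j, π^[i] (ρ y) ∉ Bad2) →
      g (π^[j] (ρ y)) = f y := by
    intro y hy h1 j
    induction j with
    | zero => intro _; exact (hb1 y hy h1).symm
    | succ j ih =>
      intro h2
      rw [Function.iterate_succ_apply', ← hb2 _ (hiterV _ (hρ y hy) j) (h2 j (by omega))]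
      exact ih fun i hi => h2 i (by omega)
  have c2 : Y2.card ≤ Bad2.card := by
    have hsel : ∀ y ∈ Y2, ∃ j < h, π^[j] (ρ y) ∈ Bad2 ∧ ∀ i < j, π^[i] (ρ y) ∉ Bad2 := by
      intro y hy
      have h2 := (Finset.mem_filter.1 hy).2.2
      have hex : ∃ j, j < h ∧ π^[j] (ρ y) ∈ Bad2 := by
        obtain ⟨j, hj, hj2⟩ := h2; exact ⟨j, hj, hj2⟩
      refine ⟨Nat.find hex, (Nat.find_spec hex).1, (Nat.find_spec hex).2, ?_⟩
      intro i hi hbad
      exact Nat.find_min hex hi ⟨lt_trans hi (Nat.find_spec hex).1, hbad⟩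
    choose! s hs1 hs2 hs3 using hsel
    apply Finset.card_le_card_of_injOn (fun y => π^[s y] (ρ y))
    · intro y hy; exact hs2 y hy
    · intro y hy y' hy' heq
      simp only at heq
      by_contra hne
      have hyY := (Finset.mem_filter.1 hy).1
      have hyY' := (Finset.mem_filter.1 hy').1
      have e1 := hpath y hyY (Finset.mem_filter.1 hy).2.1 (s y) (hs3 y hy)
      have e2 := hpath y' hyY' (Finset.mem_filter.1 hy').2.1 (s y') (hs3 y' hy')
      rw [heq] at e1
      exact hcoll y hyY y' hyY' hne (e1.symm.trans e2) (s y) (hs1 y hy) (s y') (hs1 y' hy') heq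
  have c3 : h * Y3.card ≤ V.card := by
    have hdisj : ∀ y ∈ Y3, ∀ y' ∈ Y3, y ≠ y' →
        Disjoint ((Finset.range h).image fun j => π^[j] (ρ y))
          ((Finset.range h).image fun j => π^[j] (ρ y')) := by
      intro y hy y' hy' hne
      rw [Finset.disjoint_left]
      intro v hv hv'
      rw [Finset.mem_image] at hv hv'
      obtain ⟨j, hj, hjv⟩ := hv
      obtain ⟨j', hj', hjv'⟩ := hv'
      rw [Finset.mem_range] at hj hj'
      have hyY := (Finset.mem_filter.1 hy).1
      have hyY' := (Finset.mem_filter.1 hy').1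
      have n1 : ∀ i < j, π^[i] (ρ y) ∉ Bad2 := fun i hi hb =>
        (Finset.mem_filter.1 hy).2.2 ⟨i, by omega, hb⟩
      have n2 : ∀ i < j', π^[i] (ρ y') ∉ Bad2 := fun i hi hb =>
        (Finset.mem_filter.1 hy').2.2 ⟨i, by omega, hb⟩
      have e1 := hpath y hyY (Finset.mem_filter.1 hy).2.1 j n1
      have e2 := hpath y' hyY' (Finset.mem_filter.1 hy').2.1 j' n2
      rw [hjv] at e1
      rw [hjv'] at e2
      exact hcoll y hyY y' hyY' hne (e1.symm.trans e2) j hj j' hj' (hjv.trans hjv'.symm)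
    have h1 : (Y3.biUnion fun y => (Finset.range h).image fun j => π^[j] (ρ y)).card =
        ∑ y ∈ Y3, ((Finset.range h).image fun j => π^[j] (ρ y)).card :=
      Finset.card_biUnion hdisj
    have h2 : ∀ y ∈ Y3, ((Finset.range h).image fun j => π^[j] (ρ y)).card = h := by
      intro y hy
      rw [Finset.card_image_of_injOn, Finset.card_range]
      intro i hi j hj hij
      rw [Finset.coe_range] at hi hj
      exact Q y (Finset.mem_filter.1 hy).1 hi hj hij
    rw [Finset.sum_congr rfl h2, Finset.sum_const, smul_eq_mul, mul_comm] at h1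
    rw [← h1]
    apply Finset.card_le_card
    intro v hv
    rw [Finset.mem_biUnion] at hv
    obtain ⟨y, hy, hv⟩ := hv
    rw [Finset.mem_image] at hv
    obtain ⟨j, _, rfl⟩ := hv
    exact hiterV _ (hρ y (Finset.mem_filter.1 hy).1) j
  calc h * Y.card ≤ h * (Y1.card + (Y2.card + Y3.card)) := Nat.mul_le_mul_left _ hcard
    _ = h * Y3.card + h * (Y1.card + Y2.card) := by ring
    _ ≤ V.card + h * (Bad1.card + Bad2.card) :=
        Nat.add_le_add c3 (Nat.mul_le_mul_left _ (Nat.add_le_add c1 c2))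

end Pool.Agent.H621.Near
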