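import Mathlib
import Pool.Agent.H621.Osc.Count

set_option autoImplicit false

/-!
The terms of an orbit of the `3x+k` map modulo `k`.
-/

namespace Pool.Agent.H621.Near

open Pool.Agent.H621.Osc (T odds)

theorem iter_form (k x : ℤ) (hk : k % 2 = 1) (s : ℕ) :
    ∃ c : ℤ, 2 ^ s * (T k)^[s] x = 3 ^ (odds k x s) * x + k * c := by
  induction s with
  | zero => exact ⟨0, by simp [odds]⟩
  | succ s ih =>
    obtain ⟨c, hc⟩ := ih
    rw [Function.iterate_succ_apply', odds]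
    split_ifs with h
    · have h1 := Pool.Agent.H621.Osc.T_even (k := k) h
      refine ⟨c, ?_⟩
      rw [pow_succ, mul_assoc, h1]
      simpa using hc
    · have h1 := Pool.Agent.H621.Osc.T_odd hk (by omega : (T k)^[s] x % 2 = 1)
      refine ⟨3 * c + 2 ^ s, ?_⟩
      rw [pow_succ, mul_assoc, h1, pow_succ]
      linear_combination 3 * hc

theorem iter_pi (K : ℤ) (v : ℤ) (hv : v % K = v) (j : ℕ) :
    (fun v : ℤ => 3 * v % K)^[j] v = 3 ^ j * v % K := by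
  induction j with
  | zero => simpa using hv.symm
  | succ j ih =>
    rw [Function.iterate_succ_apply', ih, pow_succ]
    rw [Int.mul_emod, Int.emod_emod_of_dvd _ (dvd_refl K), ← Int.mul_emod]
    congr 1
    ring

/-- a divisibility by `k` of a multiple of `x` -/
theorem dvd_bound (k x D : ℤ) (h : k ∣ D * x) (hD : D ≠ 0) : |k| ≤ |D| * Int.gcd x k := by
  have h1 : k ∣ D * (Int.gcd x k : ℤ) := by
    rw [Int.gcd_eq_gcd_ab]
    have : D * (x * Int.gcdA x k + k * Int.gcdB x k) = D * x * Int.gcdA x k + k * (D * Int.gcdB x k) := by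
      ring
    rw [this]
    exact dvd_add (h.mul_right _) (dvd_mul_right _ _)
  rcases eq_or_ne (Int.gcd x k) 0 with h0 | h0
  · rw [Int.gcd_eq_zero_iff] at h0
    rw [h0.1, h0.2]
    simp
  · have h2 : D * (Int.gcd x k : ℤ) ≠ 0 := mul_ne_zero hD (by exact_mod_cast h0)
    have h3 := Int.le_of_dvd (abs_pos.2 h2) ((abs_dvd_abs k _).2 h1)
    rwa [abs_mul, Nat.abs_cast] at h3

theorem odds_le (k x : ℤ) (i : ℕ) : odds k x i ≤ i := by
  induction i with
  | zero => simp [odds]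
  | succ i ih =>
    rw [odds]
    split_ifs <;> omega

theorem two_three_ne (s s' a b : ℕ) (h : s ≠ s') : (2 : ℤ) ^ s * 3 ^ a ≠ 2 ^ s' * 3 ^ b := by
  intro heq
  have h1 : (2 : ℕ) ^ s * 3 ^ a = 2 ^ s' * 3 ^ b := by exact_mod_cast heq
  have h2 := congrArg (padicValNat 2) h1
  have : Fact (Nat.Prime 2) := ⟨Nat.prime_two⟩
  have h3 : ∀ c : ℕ, padicValNat 2 (3 ^ c) = 0 := by
    intro c
    apply padicValNat.eq_zero_of_not_dvd
    intro hd
    exact absurd (Nat.prime_two.dvd_of_dvd_pow hd) (by norm_num)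
  rw [padicValNat.mul (by positivity) (by positivity), padicValNat.mul (by positivity) (by positivity),
    padicValNat.prime_pow, padicValNat.prime_pow, h3, h3] at h2
  omega

/-- different terms of an orbit are not related modulo `k` -/
theorem sep (k x : ℤ) (hk : k % 2 = 1) (J h : ℕ) (hg : (Int.gcd x k : ℤ) * (2 ^ J * 3 ^ (J + h)) < |k|)
    (s s' : ℕ) (hs : s ≤ J) (hs' : s' ≤ J) (hne : s ≠ s') (j : ℕ) (hj : j ≤ h) :
    ¬ k ∣ 3 ^ j * (T k)^[s'] x - (T k)^[s] x := by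
  intro hd
  obtain ⟨c, hc⟩ := iter_form k x hk s
  obtain ⟨c', hc'⟩ := iter_form k x hk s'
  set o := odds k x s with ho
  set o' := odds k x s' with ho'
  have h1 : k ∣ (2 ^ s * 3 ^ (j + o') - 2 ^ s' * 3 ^ o) * x := by
    have e : (2 ^ s * 3 ^ (j + o') - 2 ^ s' * 3 ^ o) * x =
        2 ^ s * 2 ^ s' * (3 ^ j * (T k)^[s'] x - (T k)^[s] x) +
          k * (2 ^ s' * c - 2 ^ s * 3 ^ j * c') := by
      rw [pow_add]
      linear_combination (2 ^ s' : ℤ) * hc - (2 ^ s * 3 ^ j : ℤ) * hc'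
    rw [e]
    exact dvd_add (hd.mul_left _) (dvd_mul_right _ _)
  have h2 : (2 : ℤ) ^ s * 3 ^ (j + o') - 2 ^ s' * 3 ^ o ≠ 0 := by
    rw [sub_ne_zero]
    exact two_three_ne s s' _ _ hne
  have h3 := dvd_bound k x _ h1 h2
  have b1 : (2 : ℤ) ^ s * 3 ^ (j + o') ≤ 2 ^ J * 3 ^ (J + h) := by
    apply mul_le_mul _ _ (by positivity) (by positivity)
    · exact pow_le_pow_right₀ (by norm_num) hs
    · exact pow_le_pow_right₀ (by norm_num) (by have := odds_le k x s'; omega)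
  have b2 : (2 : ℤ) ^ s' * 3 ^ o ≤ 2 ^ J * 3 ^ (J + h) := by
    apply mul_le_mul _ _ (by positivity) (by positivity)
    · exact pow_le_pow_right₀ (by norm_num) hs'
    · exact pow_le_pow_right₀ (by norm_num) (by have := odds_le k x s; omega)
  have b3 : (0 : ℤ) < 2 ^ s * 3 ^ (j + o') := by positivity
  have b4 : (0 : ℤ) < 2 ^ s' * 3 ^ o := by positivity
  have b5 : |(2 : ℤ) ^ s * 3 ^ (j + o') - 2 ^ s' * 3 ^ o| ≤ 2 ^ J * 3 ^ (J + h) := by
    rw [abs_le]; constructor <;> linarith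
  have b6 : |(2 : ℤ) ^ s * 3 ^ (j + o') - 2 ^ s' * 3 ^ o| * Int.gcd x k ≤
      2 ^ J * 3 ^ (J + h) * Int.gcd x k := mul_le_mul_of_nonneg_right b5 (by positivity)
  linarith [mul_comm ((2 : ℤ) ^ J * 3 ^ (J + h)) (Int.gcd x k : ℤ)]

/-- the multiples `3^j y` of a term of the orbit are different modulo `k` -/
theorem sep_pow (k x : ℤ) (hk : k % 2 = 1) (J h : ℕ)
    (hg : (Int.gcd x k : ℤ) * (2 ^ J * 3 ^ (J + h)) < |k|) (s : ℕ) (hs : s ≤ J) (i j : ℕ)
    (hi : i ≤ h) (hj : j ≤ h) (hij : i ≠ j) : ¬ k ∣ 3 ^ i * (T k)^[s] x - 3 ^ j * (T k)^[s] x := by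
  intro hd
  obtain ⟨c, hc⟩ := iter_form k x hk s
  set o := odds k x s with ho
  have h1 : k ∣ ((3 ^ i - 3 ^ j) * 3 ^ o) * x := by
    have e : ((3 ^ i - 3 ^ j) * 3 ^ o) * x =
        2 ^ s * (3 ^ i * (T k)^[s] x - 3 ^ j * (T k)^[s] x) - k * ((3 ^ i - 3 ^ j) * c) := by
      linear_combination -(3 ^ i - 3 ^ j : ℤ) * hc
    rw [e]
    exact dvd_sub (hd.mul_left _) (dvd_mul_right _ _)
  have h2 : ((3 : ℤ) ^ i - 3 ^ j) * 3 ^ o ≠ 0 := by
    apply mul_ne_zero _ (by positivity)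
    rw [sub_ne_zero]
    intro heq
    exact hij (Int.pow_right_injective (by norm_num) heq)
  have h3 := dvd_bound k x _ h1 h2
  have b0 : (3 : ℤ) ^ o ≤ 3 ^ J :=
    pow_le_pow_right₀ (by norm_num) (by have := odds_le k x s; omega)
  have b1 : (3 : ℤ) ^ i ≤ 3 ^ h := pow_le_pow_right₀ (by norm_num) hi
  have b2 : (3 : ℤ) ^ j ≤ 3 ^ h := pow_le_pow_right₀ (by norm_num) hj
  have b3 : (0 : ℤ) < 3 ^ i := by positivity
  have b4 : (0 : ℤ) < 3 ^ j := by positivity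
  have b5 : |(3 : ℤ) ^ i - 3 ^ j| ≤ 3 ^ h := by
    rw [abs_le]; constructor <;> linarith
  have b6 : |((3 : ℤ) ^ i - 3 ^ j) * 3 ^ o| ≤ 2 ^ J * 3 ^ (J + h) := by
    rw [abs_mul, abs_of_pos (show (0 : ℤ) < 3 ^ o by positivity)]
    calc |(3 : ℤ) ^ i - 3 ^ j| * 3 ^ o ≤ 3 ^ h * 3 ^ J :=
          mul_le_mul b5 b0 (by positivity) (by positivity)
      _ = 1 * 3 ^ (J + h) := by rw [pow_add]; ring
      _ ≤ 2 ^ J * 3 ^ (J + h) := mul_le_mul_of_nonneg_right (one_le_pow₀ (by norm_num)) (by positivity)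
  have b7 : |((3 : ℤ) ^ i - 3 ^ j) * 3 ^ o| * Int.gcd x k ≤
      2 ^ J * 3 ^ (J + h) * Int.gcd x k := mul_le_mul_of_nonneg_right b6 (by positivity)
  linarith [mul_comm ((2 : ℤ) ^ J * 3 ^ (J + h)) (Int.gcd x k : ℤ)]

end Pool.Agent.H621.Near
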