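import Mathlib
import Pool.Agent.H621.Osc.Count

set_option autoImplicit false

/-!
Integers whose `3x+k` orbit visits `[-100 K, 100 K]` rarely are few.
-/

namespace Pool.Agent.H621.Near

open Pool.Agent.H621.Osc (T)

/-- the number of visits of the first `J` terms of the orbit of `x` to `[-100 K, 100 K]` -/
noncomputable def visits (k : ℤ) (K : ℝ) (x : ℤ) (J : ℕ) : ℕ :=
  ((Finset.range J).filter fun s => |(((T k)^[s] x : ℤ) : ℝ)| ≤ 100 * K).card

/-- the parity word -/
def pw (k : ℤ) (J : ℕ) (x : ℤ) : Fin J → ℤ := fun i => (T k)^[(i : ℕ)] x % 2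

theorem visits_succ (k : ℤ) (K : ℝ) (x : ℤ) (J : ℕ) : visits k K x (J + 1) =
    (if |(x : ℝ)| ≤ 100 * K then 1 else 0) + visits k K (T k x) J := by
  unfold visits
  rw [Finset.card_filter, Finset.card_filter, Finset.sum_range_succ', add_comm]
  rfl

theorem pw_card_succ (k : ℤ) (J : ℕ) (E : Finset ℤ) :
    (E.image (pw k (J + 1))).card ≤
      (((E.filter fun x => x % 2 = 0).image (T k)).image (pw k J)).card +
      (((E.filter fun x => ¬ x % 2 = 0).image (T k)).image (pw k J)).card := by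
  have key : ∀ (F : Finset ℤ) (c : ℤ), (∀ x ∈ F, x % 2 = c) →
      (F.image (pw k (J + 1))).card ≤ ((F.image (T k)).image (pw k J)).card := by
    intro F c hF
    have e : F.image (pw k (J + 1)) = ((F.image (T k)).image (pw k J)).image
        (fun w => (Fin.cons c w : Fin (J + 1) → ℤ)) := by
      rw [Finset.image_image, Finset.image_image]
      apply Finset.image_congr
      intro x hx
      funext i
      refine Fin.cases ?_ (fun j => ?_) i
      · simp only [pw, Function.comp, Fin.cons_zero]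
        exact hF x hx
      · simp only [pw, Function.comp, Fin.cons_succ, Fin.val_succ, Function.iterate_succ_apply]
    rw [e]
    exact Finset.card_image_le
  have e : E = (E.filter fun x => x % 2 = 0) ∪ (E.filter fun x => ¬ x % 2 = 0) :=
    (Finset.filter_union_filter_not_eq _ _).symm
  calc (E.image (pw k (J + 1))).card
      = (((E.filter fun x => x % 2 = 0) ∪ (E.filter fun x => ¬ x % 2 = 0)).image
          (pw k (J + 1))).card := by rw [← e]
    _ ≤ ((E.filter fun x => x % 2 = 0).image (pw k (J + 1))).card +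
        ((E.filter fun x => ¬ x % 2 = 0).image (pw k (J + 1))).card := by
        rw [Finset.image_union]; exact Finset.card_union_le _ _
    _ ≤ _ := by
        apply Nat.add_le_add
        · exact key _ 0 fun x hx => (Finset.mem_filter.1 hx).2
        · exact key _ 1 fun x hx => by
            have := (Finset.mem_filter.1 hx).2
            omega

theorem V_even (k : ℤ) (K : ℝ) (x : ℤ) (hx : x % 2 = 0) (a : ℝ)
    (h : |(x : ℝ)| / K + 1 ≤ a) : |((T k x : ℤ) : ℝ)| / K + 1 ≤ (a + 1) / 2 := by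
  have e : ((T k x : ℤ) : ℝ) = x / 2 := by
    have h1 := Pool.Agent.H621.Osc.T_even (k := k) hx
    have : (2 : ℝ) * (T k x : ℤ) = x := by exact_mod_cast h1
    linarith
  rw [e, abs_div, abs_two]
  have : |(x : ℝ)| / 2 / K = (|(x : ℝ)| / K) / 2 := by ring
  rw [this]
  linarith

theorem V_odd (k : ℤ) (hk : k % 2 = 1) (K : ℝ) (hK : 0 < K) (hkK : |(k : ℝ)| ≤ K) (x : ℤ)
    (hx : x % 2 = 1) (a : ℝ) (h : |(x : ℝ)| / K + 1 ≤ a) :
    |((T k x : ℤ) : ℝ)| / K + 1 ≤ 3 * a / 2 := by
  have e : ((T k x : ℤ) : ℝ) = (3 * x + k) / 2 := by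
    have h1 := Pool.Agent.H621.Osc.T_odd hk hx
    have : (2 : ℝ) * (T k x : ℤ) = 3 * x + k := by exact_mod_cast h1
    linarith
  have h1 : |(3 * (x : ℝ) + k) / 2| ≤ (3 * |(x : ℝ)| + K) / 2 := by
    rw [abs_div, abs_two]
    have h2 := abs_add_le (3 * (x : ℝ)) k
    rw [abs_mul, abs_of_pos (show (0 : ℝ) < 3 by norm_num)] at h2
    linarith
  have h3 : |((T k x : ℤ) : ℝ)| / K ≤ (3 * (|(x : ℝ)| / K) + 1) / 2 := by
    rw [e, div_le_iff₀ hK]
    refine h1.trans (le_of_eq ?_)
    field_simp
  linarith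

theorem sqrt_step_high (a : ℝ) (ha : 101 < a) : √((a + 1) / 2) + √(3 * a / 2) ≤ 1.94 * √a := by
  have ha0 : 0 < a := by linarith
  have h1 : √((a + 1) / 2) ≤ 0.711 * √a := by
    rw [show (0.711 : ℝ) * √a = √(0.711 ^ 2 * a) by
      rw [Real.sqrt_mul (by norm_num), Real.sqrt_sq (by norm_num)]]
    apply Real.sqrt_le_sqrt
    nlinarith
  have h2 : √(3 * a / 2) ≤ 1.225 * √a := by
    rw [show (1.225 : ℝ) * √a = √(1.225 ^ 2 * a) by
      rw [Real.sqrt_mul (by norm_num), Real.sqrt_sq (by norm_num)]]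
    apply Real.sqrt_le_sqrt
    nlinarith
  have h3 := Real.sqrt_nonneg a
  linarith

theorem sqrt_step_low (a : ℝ) (ha : 1 ≤ a) : √((a + 1) / 2) + √(3 * a / 2) ≤ 2.24 * √a := by
  have h1 : √((a + 1) / 2) ≤ 1 * √a := by
    rw [one_mul]
    apply Real.sqrt_le_sqrt
    linarith
  have h2 : √(3 * a / 2) ≤ 1.225 * √a := by
    rw [show (1.225 : ℝ) * √a = √(1.225 ^ 2 * a) by
      rw [Real.sqrt_mul (by norm_num), Real.sqrt_sq (by norm_num)]]
    apply Real.sqrt_le_sqrt
    nlinarith
  have h3 := Real.sqrt_nonneg a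
  linarith

/-- few parity words -/
theorem words_few (k : ℤ) (hk : k % 2 = 1) (K : ℝ) (hK : 0 < K) (hkK : |(k : ℝ)| ≤ K) :
    ∀ (J m : ℕ) (a : ℝ) (E : Finset ℤ), 1 ≤ a → (∀ x ∈ E, |(x : ℝ)| / K + 1 ≤ a) →
      (∀ x ∈ E, visits k K x J < m) →
      ((E.image (pw k J)).card : ℝ) ≤ √a * 1.94 ^ J * (1.12 / 0.97) ^ m := by
  intro J
  induction J with
  | zero =>
    intro m a E ha _ _
    have h1 : (E.image (pw k 0)).card ≤ 1 := by
      apply Finset.card_le_one.2
      intro u _ v _
      funext i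
      exact i.elim0
    have h2 : ((E.image (pw k 0)).card : ℝ) ≤ 1 := by exact_mod_cast h1
    have h3 : (1 : ℝ) ≤ √a := Real.one_le_sqrt.2 ha
    have h4 : (1 : ℝ) ≤ (1.12 / 0.97) ^ m := one_le_pow₀ (by norm_num)
    rw [pow_zero, mul_one]
    nlinarith
  | succ J ih =>
    intro m a E ha hE hv
    have hstep := pw_card_succ k J E
    set E0 := (E.filter fun x => x % 2 = 0).image (T k) with hE0
    set E1 := (E.filter fun x => ¬ x % 2 = 0).image (T k) with hE1
    have hstep' : ((E.image (pw k (J + 1))).card : ℝ) ≤ (E0.image (pw k J)).card +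
        (E1.image (pw k J)).card := by exact_mod_cast hstep
    have b0 : ∀ y ∈ E0, |(y : ℝ)| / K + 1 ≤ (a + 1) / 2 := by
      intro y hy
      rw [hE0, Finset.mem_image] at hy
      obtain ⟨x, hx, rfl⟩ := hy
      rw [Finset.mem_filter] at hx
      exact V_even k K x hx.2 a (hE x hx.1)
    have b1 : ∀ y ∈ E1, |(y : ℝ)| / K + 1 ≤ 3 * a / 2 := by
      intro y hy
      rw [hE1, Finset.mem_image] at hy
      obtain ⟨x, hx, rfl⟩ := hy
      rw [Finset.mem_filter] at hx
      exact V_odd k hk K hK hkK x (by omega) a (hE x hx.1)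
    rcases lt_or_ge 101 a with hhigh | hlow
    · have v0 : ∀ y ∈ E0, visits k K y J < m := by
        intro y hy
        rw [hE0, Finset.mem_image] at hy
        obtain ⟨x, hx, rfl⟩ := hy
        rw [Finset.mem_filter] at hx
        have := hv x hx.1
        rw [visits_succ] at this
        omega
      have v1 : ∀ y ∈ E1, visits k K y J < m := by
        intro y hy
        rw [hE1, Finset.mem_image] at hy
        obtain ⟨x, hx, rfl⟩ := hy
        rw [Finset.mem_filter] at hx
        have := hv x hx.1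
        rw [visits_succ] at this
        omega
      have c0 := ih m ((a + 1) / 2) E0 (by linarith) b0 v0
      have c1 := ih m (3 * a / 2) E1 (by linarith) b1 v1
      have hs := sqrt_step_high a hhigh
      have hP : (0 : ℝ) ≤ 1.94 ^ J * (1.12 / 0.97) ^ m := by positivity
      calc ((E.image (pw k (J + 1))).card : ℝ)
          ≤ √((a + 1) / 2) * 1.94 ^ J * (1.12 / 0.97) ^ m +
            √(3 * a / 2) * 1.94 ^ J * (1.12 / 0.97) ^ m := by linarith
        _ = (√((a + 1) / 2) + √(3 * a / 2)) * (1.94 ^ J * (1.12 / 0.97) ^ m) := by ring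
        _ ≤ (1.94 * √a) * (1.94 ^ J * (1.12 / 0.97) ^ m) := mul_le_mul_of_nonneg_right hs hP
        _ = √a * 1.94 ^ (J + 1) * (1.12 / 0.97) ^ m := by ring
    · -- every element is a visit
      have hvis : ∀ x ∈ E, |(x : ℝ)| ≤ 100 * K := by
        intro x hx
        have := hE x hx
        have h2 : |(x : ℝ)| / K ≤ 100 := by linarith
        rwa [div_le_iff₀ hK] at h2
      rcases Nat.eq_zero_or_pos m with hm | hm
      · have hemp : E = ∅ := by
          rw [Finset.eq_empty_iff_forall_notMem]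
          intro x hx
          have := hv x hx
          omega
        rw [hemp, Finset.image_empty, Finset.card_empty]
        push_cast
        positivity
      · obtain ⟨m', rfl⟩ : ∃ m', m = m' + 1 := ⟨m - 1, by omega⟩
        have v0 : ∀ y ∈ E0, visits k K y J < m' := by
          intro y hy
          rw [hE0, Finset.mem_image] at hy
          obtain ⟨x, hx, rfl⟩ := hy
          rw [Finset.mem_filter] at hx
          have := hv x hx.1
          rw [visits_succ, if_pos (hvis x hx.1)] at this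
          omega
        have v1 : ∀ y ∈ E1, visits k K y J < m' := by
          intro y hy
          rw [hE1, Finset.mem_image] at hy
          obtain ⟨x, hx, rfl⟩ := hy
          rw [Finset.mem_filter] at hx
          have := hv x hx.1
          rw [visits_succ, if_pos (hvis x hx.1)] at this
          omega
        have c0 := ih m' ((a + 1) / 2) E0 (by linarith) b0 v0
        have c1 := ih m' (3 * a / 2) E1 (by linarith) b1 v1
        have hs := sqrt_step_low a ha
        have hP : (0 : ℝ) ≤ 1.94 ^ J * (1.12 / 0.97) ^ m' := by positivity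
        calc ((E.image (pw k (J + 1))).card : ℝ)
            ≤ √((a + 1) / 2) * 1.94 ^ J * (1.12 / 0.97) ^ m' +
              √(3 * a / 2) * 1.94 ^ J * (1.12 / 0.97) ^ m' := by linarith
          _ = (√((a + 1) / 2) + √(3 * a / 2)) * (1.94 ^ J * (1.12 / 0.97) ^ m') := by ring
          _ ≤ (2.24 * √a) * (1.94 ^ J * (1.12 / 0.97) ^ m') := mul_le_mul_of_nonneg_right hs hP
          _ = √a * 1.94 ^ (J + 1) * (1.12 / 0.97) ^ (m' + 1) := by
              rw [pow_succ (1.94 : ℝ), pow_succ (1.12 / 0.97 : ℝ)]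
              have : (1.94 : ℝ) * (1.12 / 0.97) = 2.24 := by norm_num
              calc 2.24 * √a * (1.94 ^ J * (1.12 / 0.97) ^ m')
                  = (1.94 * (1.12 / 0.97)) * √a * (1.94 ^ J * (1.12 / 0.97) ^ m') := by rw [this]
                _ = _ := by ring

/-- numbers with the same parity word -/
theorem fibre_le (k : ℤ) (hk : k % 2 = 1) (J : ℕ) (X : ℝ) (hX : 0 ≤ X) (F : Finset ℤ)
    (hF : ∀ x ∈ F, |(x : ℝ)| ≤ X) (w : Fin J → ℤ) (hw : ∀ x ∈ F, pw k J x = w) :
    (F.card : ℝ) ≤ 2 * X / 2 ^ J + 1 := by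
  rcases F.eq_empty_or_nonempty with h | h
  · rw [h, Finset.card_empty]; push_cast; positivity
  set x0 := F.min' h with hx0
  have hmem := F.min'_mem h
  -- the map x ↦ (x - x0) / 2^J
  have hdiv : ∀ x ∈ F, (2 : ℤ) ^ J ∣ x - x0 := by
    intro x hx
    apply Pool.Agent.H621.Osc.dvd_of_parity k hk J x x0
    intro i hi
    have h1 := congrFun (hw x hx) ⟨i, hi⟩
    have h2 := congrFun (hw x0 hmem) ⟨i, hi⟩
    exact h1.trans h2.symm
  have hinj : Set.InjOn (fun x : ℤ => ((x - x0) / 2 ^ J).toNat) F := by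
    intro x hx y hy hxy
    simp only at hxy
    have hx1 : 0 ≤ x - x0 := by have := F.min'_le x hx; omega
    have hy1 : 0 ≤ y - x0 := by have := F.min'_le y hy; omega
    have hP : (0 : ℤ) < 2 ^ J := by positivity
    have e1 : 0 ≤ (x - x0) / 2 ^ J := Int.ediv_nonneg hx1 hP.le
    have e2 : 0 ≤ (y - x0) / 2 ^ J := Int.ediv_nonneg hy1 hP.le
    have e3 : (x - x0) / 2 ^ J = (y - x0) / 2 ^ J := by omega
    obtain ⟨u, hu⟩ := hdiv x hx
    obtain ⟨v, hv⟩ := hdiv y hy
    rw [hu, hv, Int.mul_ediv_cancel_left _ hP.ne', Int.mul_ediv_cancel_left _ hP.ne'] at e3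
    rw [e3] at hu
    omega
  set M := ⌊2 * X / 2 ^ J⌋₊ with hM
  have hmaps : ∀ x ∈ F, (fun x : ℤ => ((x - x0) / 2 ^ J).toNat) x ∈ Finset.range (M + 1) := by
    intro x hx
    rw [Finset.mem_range]
    simp only
    have hx1 : 0 ≤ x - x0 := by have := F.min'_le x hx; omega
    have hP : (0 : ℤ) < 2 ^ J := by positivity
    obtain ⟨u, hu⟩ := hdiv x hx
    rw [hu, Int.mul_ediv_cancel_left _ hP.ne']
    have hu0 : 0 ≤ u := by
      by_contra hcon
      have : (2 : ℤ) ^ J * u < 0 := mul_neg_of_pos_of_neg hP (by omega)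
      omega
    have h3 : (u : ℝ) ≤ 2 * X / 2 ^ J := by
      rw [le_div_iff₀ (by positivity)]
      have h4 : ((x - x0 : ℤ) : ℝ) = 2 ^ J * u := by rw [hu]; push_cast; ring
      push_cast at h4
      have h5 := abs_le.1 (hF x hx)
      have h6 := abs_le.1 (hF x0 hmem)
      linarith
    have h4 : u.toNat ≤ M := by
      rw [hM]
      apply Nat.le_floor
      have : ((u.toNat : ℕ) : ℝ) = (u : ℝ) := by
        have : ((u.toNat : ℤ) : ℝ) = (u : ℝ) := by rw [Int.toNat_of_nonneg hu0]
        exact_mod_cast this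
      rw [this]; exact h3
    omega
  have h1 := Finset.card_le_card_of_injOn _ hmaps hinj
  rw [Finset.card_range] at h1
  have h2 : (M : ℝ) ≤ 2 * X / 2 ^ J := Nat.floor_le (by positivity)
  have h3 : (F.card : ℝ) ≤ M + 1 := by exact_mod_cast h1
  linarith

/-- the number of the exceptional integers -/
theorem exc_count (k : ℤ) (hk : k % 2 = 1) (K : ℝ) (hK : 0 < K) (hkK : |(k : ℝ)| ≤ K)
    (J m : ℕ) (X : ℝ) (hX : 0 ≤ X) (E : Finset ℤ) (hE : ∀ x ∈ E, |(x : ℝ)| ≤ X)
    (hv : ∀ x ∈ E, visits k K x J < m) :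
    (E.card : ℝ) ≤ (2 * X / 2 ^ J + 1) * (√(X / K + 1) * 1.94 ^ J * (1.12 / 0.97) ^ m) := by
  have h1 := words_few k hk K hK hkK J m (X / K + 1) E (by
      have : 0 ≤ X / K := by positivity
      linarith) (fun x hx => by
      have := hE x hx
      have : |(x : ℝ)| / K ≤ X / K := div_le_div_of_nonneg_right this hK.le
      linarith) hv
  have h2 : (E.card : ℝ) ≤ (2 * X / 2 ^ J + 1) * (E.image (pw k J)).card := by
    have e := Finset.card_eq_sum_card_image (pw k J) E
    have e' : (E.card : ℝ) = ∑ w ∈ E.image (pw k J), ((E.filter fun x => pw k J x = w).card : ℝ) := by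
      rw [e]; push_cast; rfl
    rw [e', mul_comm, ← nsmul_eq_mul]
    apply Finset.sum_le_card_nsmul
    intro w _
    apply fibre_le k hk J X hX _ _ w
    · intro x hx; exact (Finset.mem_filter.1 hx).2
    · intro x hx; exact hE x (Finset.mem_filter.1 hx).1
  refine h2.trans ?_
  exact mul_le_mul_of_nonneg_left h1 (by positivity)

end Pool.Agent.H621.Near
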