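import Mathlib
import Pool.Agent.H621.Near.Words
import Pool.Agent.H621.Near.Charge
import Pool.Agent.H621.Near.Sep
import Pool.Agent.H621.Near.Bad

set_option autoImplicit false

/-!
The main inequalities.
-/

namespace Pool.Agent.H621.Near

open Pool.Agent.H621.Osc (T odds)

theorem dvd_of_emod_eq {K a b : ℤ} (h : a % K = b % K) : K ∣ a - b :=
  Int.ModEq.dvd (show b ≡ a [ZMOD K] from h.symm)

theorem pi_inj (k : ℤ) (h3 : k % 3 ≠ 0) :
    Set.InjOn (fun v : ℤ => 3 * v % |k|) (Finset.Ico 0 |k| : Finset ℤ) := by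
  intro u hu v hv huv
  rw [Finset.coe_Ico, Set.mem_Ico] at hu hv
  simp only at huv
  have h1 : |k| ∣ 3 * (u - v) := by
    have := dvd_of_emod_eq huv
    rwa [← mul_sub] at this
  have h2 : IsCoprime |k| 3 := by
    have h4 : IsCoprime k 3 := by
      rw [Int.isCoprime_iff_gcd_eq_one]
      have h5 := Int.gcd_dvd_right k 3
      have h6 := Int.gcd_dvd_left k 3
      have h7 : Int.gcd k 3 ∣ 3 := by exact_mod_cast h5
      rcases (Nat.dvd_prime Nat.prime_three).1 h7 with h | h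
      · exact h
      · rw [h] at h6
        exfalso
        apply h3
        have : (3 : ℤ) ∣ k := by exact_mod_cast h6
        omega
    rcases abs_choice k with h | h <;> rw [h]
    · exact h4
    · exact h4.neg_left
  have h4 := h2.dvd_of_dvd_mul_left h1
  have h5 : u - v = 0 := Int.eq_zero_of_abs_lt_dvd h4 (by rw [abs_lt]; constructor <;> linarith [hu.1, hu.2, hv.1, hv.2])
  omega

theorem pi_maps (k : ℤ) (hk : k ≠ 0) : ∀ v ∈ (Finset.Ico 0 |k| : Finset ℤ),
    (fun v : ℤ => 3 * v % |k|) v ∈ (Finset.Ico 0 |k| : Finset ℤ) := by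
  intro v _
  rw [Finset.mem_Ico]
  exact ⟨Int.emod_nonneg _ (abs_ne_zero.2 hk), Int.emod_lt_of_pos _ (abs_pos.2 hk)⟩

theorem iter_pi' (k y : ℤ) (j : ℕ) :
    (fun v : ℤ => 3 * v % |k|)^[j] (y % |k|) = 3 ^ j * y % |k| := by
  rw [iter_pi |k| (y % |k|) (Int.emod_emod_of_dvd _ (dvd_refl _)) j]
  rw [Int.mul_emod, Int.emod_emod_of_dvd _ (dvd_refl _), ← Int.mul_emod]

/-- the charging argument for the `3x+k` map -/
theorem charge_T (k : ℤ) (h3 : k % 3 ≠ 0) (hk : k % 2 = 1) (B t h : ℕ) (Y : Finset ℤ)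
    (hY : ∀ y ∈ Y, |y| ≤ B * |k|)
    (P : ∀ y ∈ Y, ∀ y' ∈ Y, y ≠ y' → (T k)^[t] y = (T k)^[t] y' → ∀ j < h, ¬ k ∣ 3 ^ j * y - y')
    (Q : ∀ y ∈ Y, ∀ i < h, ∀ j < h, i ≠ j → ¬ k ∣ 3 ^ i * y - 3 ^ j * y) :
    h * Y.card ≤ |k|.toNat + h * ((bad1 k B t).card + (bad2 k t).card) := by
  have hk0 : k ≠ 0 := by rintro rfl; exact absurd hk (by decide)
  have hV : (Finset.Ico 0 |k| : Finset ℤ).card = |k|.toNat := by simp
  rw [← hV]
  have hρ : ∀ y ∈ Y, y % |k| ∈ (Finset.Ico 0 |k| : Finset ℤ) := by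
    intro y _
    rw [Finset.mem_Ico]
    exact ⟨Int.emod_nonneg _ (abs_ne_zero.2 hk0), Int.emod_lt_of_pos _ (abs_pos.2 hk0)⟩
  apply charge Y (Finset.Ico 0 |k|) (fun v : ℤ => 3 * v % |k|) (pi_inj k h3) (pi_maps k hk0)
    (fun y => y % |k|) hρ (T k)^[t] (T k)^[t] (bad1 k B t) (bad2 k t) ?_ ?_ h ?_ ?_
  · intro y hy hnb
    by_contra hcon
    apply hnb
    rw [bad1, Finset.mem_filter, Finset.mem_Icc]
    exact ⟨abs_le.1 (hY y hy), hcon⟩
  · intro v hv hnb
    by_contra hcon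
    apply hnb
    rw [bad2, Finset.mem_filter]
    exact ⟨hv, hcon⟩
  · intro y hy y' hy' hne hf j hj heq
    rw [iter_pi'] at heq
    exact P y hy y' hy' hne hf j hj ((abs_dvd k _).1 (dvd_of_emod_eq heq))
  · intro y hy i hi j hj hij
    simp only at hij
    rw [iter_pi', iter_pi'] at hij
    by_contra hne
    exact Q y hy i hi j hj hne ((abs_dvd k _).1 (dvd_of_emod_eq hij))

/-- the main inequality for classes of merging orbits -/
theorem classes_main (k : ℤ) (h3 : k % 3 ≠ 0) (hk : k % 2 = 1) (J m h t : ℕ) (R : Finset ℤ)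
    (hg : ∀ x ∈ R, (Int.gcd x k : ℤ) * (2 ^ J * 3 ^ (J + h)) < |k|)
    (hv : ∀ x ∈ R, m ≤ visits k |(k : ℝ)| x J)
    (hR : ∀ x ∈ R, ∀ y ∈ R, x ≠ y → ∀ i j : ℕ, (T k)^[i] x ≠ (T k)^[j] y) :
    h * (m * R.card) ≤ |k|.toNat + h * ((bad1 k 100 t).card + (bad2 k t).card) := by
  classical
  set vis : ℤ → Finset ℕ := fun x =>
    (Finset.range J).filter fun s => |(((T k)^[s] x : ℤ) : ℝ)| ≤ 100 * |(k : ℝ)| with hvis
  set Y := R.biUnion fun x => (vis x).image fun s => (T k)^[s] x with hYdef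
  have hinj : ∀ x ∈ R, ∀ s ≤ J, ∀ s' ≤ J, (T k)^[s] x = (T k)^[s'] x → s = s' := by
    intro x hx s hs s' hs' heq
    by_contra hne
    apply sep k x hk J h (hg x hx) s s' hs hs' hne 0 (Nat.zero_le _)
    rw [pow_zero, one_mul, heq, sub_self]
    exact dvd_zero _
  have hcard : m * R.card ≤ Y.card := by
    rw [hYdef, Finset.card_biUnion]
    · rw [mul_comm, ← smul_eq_mul]
      apply Finset.card_nsmul_le_sum
      intro x hx
      rw [Finset.card_image_of_injOn]
      · exact hv x hx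
      · intro s hs s' hs' heq
        rw [hvis, Finset.mem_coe, Finset.mem_filter, Finset.mem_range] at hs hs'
        exact hinj x hx s (by omega) s' (by omega) heq
    · intro x hx y hy hne
      show Disjoint _ _
      rw [Finset.disjoint_left]
      intro z hz hz'
      rw [Finset.mem_image] at hz hz'
      obtain ⟨s, _, hs⟩ := hz
      obtain ⟨s', _, hs'⟩ := hz'
      exact hR x hx y hy hne s s' (hs.trans hs'.symm)
  have hmem : ∀ y ∈ Y, ∃ x ∈ R, ∃ s < J, |(((T k)^[s] x : ℤ) : ℝ)| ≤ 100 * |(k : ℝ)| ∧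
      (T k)^[s] x = y := by
    intro y hy
    rw [hYdef, Finset.mem_biUnion] at hy
    obtain ⟨x, hx, hy⟩ := hy
    rw [Finset.mem_image] at hy
    obtain ⟨s, hs, rfl⟩ := hy
    rw [hvis, Finset.mem_filter, Finset.mem_range] at hs
    exact ⟨x, hx, s, hs.1, hs.2, rfl⟩
  refine (Nat.mul_le_mul_left h hcard).trans ?_
  apply charge_T k h3 hk 100 t h Y
  · intro y hy
    obtain ⟨x, _, s, _, hs, rfl⟩ := hmem y hy
    push_cast
    exact_mod_cast hs
  · intro y hy y' hy' hne hf j hj hd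
    obtain ⟨x, hx, s, hs, _, rfl⟩ := hmem y hy
    obtain ⟨x', hx', s', hs', _, rfl⟩ := hmem y' hy'
    rcases eq_or_ne x x' with rfl | hxx
    · have hss : s' ≠ s := by rintro rfl; exact hne rfl
      exact sep k x hk J h (hg x hx) s' s (by omega) (by omega) hss j (by omega) hd
    · rw [← Function.iterate_add_apply, ← Function.iterate_add_apply] at hf
      exact hR x hx x' hx' hxx _ _ hf
  · intro y hy i hi j hj hij
    obtain ⟨x, hx, s, hs, _, rfl⟩ := hmem y hy
    exact sep_pow k x hk J h (hg x hx) s (by omega) i j (by omega) (by omega) hij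

/-- the main inequality for periodic points -/
theorem periodic_main (k : ℤ) (h3 : k % 3 ≠ 0) (hk : k % 2 = 1) (B h t : ℕ) (R : Finset ℤ)
    (hB : ∀ x ∈ R, |x| ≤ B * |k|) (hg : ∀ x ∈ R, (Int.gcd x k : ℤ) * (2 ^ 0 * 3 ^ (0 + h)) < |k|)
    (hR : ∀ x ∈ R, ∃ p : ℕ, 1 ≤ p ∧ (T k)^[p] x = x) :
    h * R.card ≤ |k|.toNat + h * ((bad1 k B t).card + (bad2 k t).card) := by
  apply charge_T k h3 hk B t h R hB
  · intro y hy y' hy' hne hf
    exfalso
    apply hne
    obtain ⟨p, hp, hpy⟩ := hR y hy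
    obtain ⟨p', hp', hpy'⟩ := hR y' hy'
    have h1 : Function.IsPeriodicPt (T k) (p * p') y :=
      Function.IsPeriodicPt.mul_const (show Function.IsPeriodicPt (T k) p y from hpy) p'
    have h2 : Function.IsPeriodicPt (T k) (p * p') y' :=
      Function.IsPeriodicPt.const_mul (show Function.IsPeriodicPt (T k) p' y' from hpy') p
    have hpp : 1 ≤ p * p' := Nat.mul_pos hp hp'
    have h3 : Function.IsPeriodicPt (T k) (t * (p * p')) y := h1.const_mul t
    have h4 : Function.IsPeriodicPt (T k) (t * (p * p')) y' := h2.const_mul t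
    have e : t * (p * p') = (t * (p * p') - t) + t := by
      have : t ≤ t * (p * p') := Nat.le_mul_of_pos_right t hpp
      omega
    have h5 : (T k)^[t * (p * p')] y = (T k)^[t * (p * p')] y' := by
      rw [e, Function.iterate_add_apply, Function.iterate_add_apply, hf]
    rw [h3, h4] at h5
    exact h5
  · intro y hy i hi j hj hij
    exact sep_pow k y hk 0 h (hg y hy) 0 le_rfl i j (by omega) (by omega) hij

end Pool.Agent.H621.Near
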