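import Mathlib
import Pool.Agent.H621.Near.Main

set_option autoImplicit false

/-!
The upper bounds.
-/

namespace Pool.Agent.H621.Near

open Pool.Agent.H621.Osc (T odds)

/-- the integers which have a large common divisor with `k` are few -/
theorem gcd_large (k : ℤ) (hk0 : k ≠ 0) (G : ℕ) (X : ℝ) (hX : 0 ≤ X) (E : Finset ℤ)
    (hE : ∀ x ∈ E, |(x : ℝ)| ≤ X) (hg : ∀ x ∈ E, |k| ≤ (Int.gcd x k : ℤ) * G) :
    (E.card : ℝ) ≤ G * (2 * (X * G / |(k : ℝ)|) + 1) := by
  have hKpos : 0 < |(k : ℝ)| := abs_pos.2 (by exact_mod_cast hk0)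
  have hnat : 0 < k.natAbs := Int.natAbs_pos.2 hk0
  set M : ℕ := ⌊X * G / |(k : ℝ)|⌋₊ with hM
  have hMr : (M : ℝ) ≤ X * G / |(k : ℝ)| := Nat.floor_le (by positivity)
  have hgpos : ∀ x : ℤ, 0 < Int.gcd x k := fun x => Int.gcd_pos_of_ne_zero_right x hk0
  have h1 : E.card ≤ ((Finset.Icc 1 G) ×ˢ (Finset.Icc (-(M : ℤ)) M)).card := by
    apply Finset.card_le_card_of_injOn (fun x => (k.natAbs / Int.gcd x k, x / (Int.gcd x k : ℤ)))
    · intro x hx
      rw [Finset.mem_coe, Finset.mem_product, Finset.mem_Icc, Finset.mem_Icc]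
      have hgx := hgpos x
      have hd : Int.gcd x k ∣ k.natAbs := by
        have := Int.gcd_dvd_right x k
        exact Int.natCast_dvd.1 this
      have hb := hg x hx
      have hb' : k.natAbs ≤ Int.gcd x k * G := by
        have : ((k.natAbs : ℕ) : ℤ) ≤ ((Int.gcd x k * G : ℕ) : ℤ) := by
          push_cast
          exact hb
        exact_mod_cast this
      refine ⟨⟨?_, ?_⟩, ?_⟩
      · exact Nat.div_pos (Nat.le_of_dvd hnat hd) hgx
      · exact Nat.div_le_of_le_mul hb'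
      · rw [← abs_le]
        obtain ⟨y, hy⟩ := Int.gcd_dvd_left x k
        have hgz : (Int.gcd x k : ℤ) ≠ 0 := by exact_mod_cast hgx.ne'
        have hyx : x / (Int.gcd x k : ℤ) = y := Int.ediv_eq_of_eq_mul_right hgz hy
        simp only
        rw [hyx]
        have h2 : |(x : ℝ)| = (Int.gcd x k : ℝ) * |(y : ℝ)| := by
          have : (x : ℝ) = (Int.gcd x k : ℝ) * (y : ℝ) := by exact_mod_cast hy
          rw [this, abs_mul, abs_of_nonneg (by positivity)]
        have h3 : |(y : ℝ)| ≤ X * G / |(k : ℝ)| := by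
          rw [le_div_iff₀ hKpos]
          have h4 := hE x hx
          rw [h2] at h4
          have h5 : |(k : ℝ)| ≤ (Int.gcd x k : ℝ) * G := by
            have : ((|k| : ℤ) : ℝ) ≤ (((Int.gcd x k : ℤ) * G : ℤ) : ℝ) := by exact_mod_cast hb
            push_cast at this
            exact this
          calc |(y : ℝ)| * |(k : ℝ)| ≤ |(y : ℝ)| * ((Int.gcd x k : ℝ) * G) :=
                mul_le_mul_of_nonneg_left h5 (abs_nonneg _)
            _ = ((Int.gcd x k : ℝ) * |(y : ℝ)|) * G := by ring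
            _ ≤ X * G := mul_le_mul_of_nonneg_right h4 (Nat.cast_nonneg _)
        have h6 : ((y.natAbs : ℕ) : ℝ) ≤ X * G / |(k : ℝ)| := by
          have : ((y.natAbs : ℕ) : ℝ) = |(y : ℝ)| := by
            rw [Nat.cast_natAbs]; push_cast; rfl
          rw [this]; exact h3
        have h7 : y.natAbs ≤ M := Nat.le_floor h6
        rw [Int.abs_eq_natAbs]
        exact_mod_cast h7
    · intro x hx y hy hxy
      simp only [Prod.mk.injEq] at hxy
      obtain ⟨e1, e2⟩ := hxy
      have dx : Int.gcd x k ∣ k.natAbs := Int.natCast_dvd.1 (Int.gcd_dvd_right x k)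
      have dy : Int.gcd y k ∣ k.natAbs := Int.natCast_dvd.1 (Int.gcd_dvd_right y k)
      have e3 : Int.gcd x k = Int.gcd y k := by
        have h1 := Nat.div_mul_cancel dx
        have h2 := Nat.div_mul_cancel dy
        rw [e1] at h1
        have h3 : 0 < k.natAbs / Int.gcd y k := Nat.div_pos (Nat.le_of_dvd hnat dy) (hgpos y)
        exact Nat.eq_of_mul_eq_mul_left h3 (h1.trans h2.symm)
      have h1 := Int.mul_ediv_cancel' (Int.gcd_dvd_left x k)
      have h2 := Int.mul_ediv_cancel' (Int.gcd_dvd_left y k)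
      rw [← h1, ← h2, e2, e3]
  rw [Finset.card_product, Nat.card_Icc, Int.card_Icc] at h1
  have h2 : (E.card : ℝ) ≤ (G : ℝ) * (2 * M + 1) := by
    have e : ((M : ℤ) + 1 - -(M : ℤ)).toNat = 2 * M + 1 := by omega
    rw [e, Nat.add_sub_cancel] at h1
    exact_mod_cast h1
  refine h2.trans ?_
  apply mul_le_mul_of_nonneg_left _ (Nat.cast_nonneg G)
  linarith

/-- the parameters -/
theorem params (K : ℕ) (L : ℕ) (hL1 : 2 ^ L ≤ K) (hL0 : 1600 ≤ L) :
    (L / 2) * 2 ^ (L / 2) ≤ K ∧ (2 ^ (L / 20) * 3 ^ (L / 20 + Nat.sqrt L)) ^ 4 ≤ K := by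
  constructor
  · have h1 : L / 2 ≤ 2 ^ (L / 2) := Nat.lt_two_pow_self.le
    calc (L / 2) * 2 ^ (L / 2) ≤ 2 ^ (L / 2) * 2 ^ (L / 2) := Nat.mul_le_mul_right _ h1
      _ = 2 ^ (L / 2 + L / 2) := by rw [pow_add]
      _ ≤ 2 ^ L := Nat.pow_le_pow_right (by norm_num) (by omega)
      _ ≤ K := hL1
  · have h1 : Nat.sqrt L ≤ L / 40 := by
      rw [Nat.le_div_iff_mul_le (by norm_num)]
      have h2 := Nat.sqrt_le' L
      by_contra hcon
      have h3 : L < Nat.sqrt L * 40 := by omega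
      have h4 : Nat.sqrt L < 40 := by
        by_contra h5
        have h6 : 40 ≤ Nat.sqrt L := by omega
        nlinarith
      have h5 : Nat.sqrt L * 40 < 40 * 40 := by omega
      omega
    set J := L / 20 with hJ
    have h2 : 2 * Nat.sqrt L ≤ J := by omega
    have h3 : (3 : ℕ) ^ 12 ≤ 2 ^ 20 := by norm_num
    calc (2 ^ J * 3 ^ (J + Nat.sqrt L)) ^ 4
        = 2 ^ (4 * J) * 3 ^ (4 * J + 4 * Nat.sqrt L) := by
          rw [mul_pow, ← pow_mul, ← pow_mul]
          congr 2 <;> ring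
      _ ≤ 2 ^ (4 * J) * 3 ^ (6 * J) := by
          apply Nat.mul_le_mul_left
          exact Nat.pow_le_pow_right (by norm_num) (by omega)
      _ = 2 ^ (4 * J) * (3 ^ 6) ^ J := by rw [← pow_mul]
      _ ≤ 2 ^ (4 * J) * (2 ^ 10) ^ J := by
          apply Nat.mul_le_mul_left
          exact Nat.pow_le_pow_left (by norm_num) J
      _ = 2 ^ (14 * J) := by rw [← pow_mul, ← pow_add]; congr 1; ring
      _ ≤ 2 ^ L := Nat.pow_le_pow_right (by norm_num) (by omega)
      _ ≤ K := hL1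

end Pool.Agent.H621.Near
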