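import Mathlib
import Pool.Agent.H621.Near.Upper

set_option autoImplicit false

/-!
The upper bounds, asymptotic form.
-/

namespace Pool.Agent.H621.Near

open Pool.Agent.H621.Osc (T odds)

theorem pow_small (K : ℝ) (L : ℕ) (hL : 1 ≤ L) (hK : 2 ^ L ≤ K) (s : ℝ) (hs : 0 < s) :
    K ^ (-s) ≤ 5 / (s ^ 2 * L ^ 2) := by
  have hK0 : 0 < K := lt_of_lt_of_le (by positivity) hK
  have hLr : (1 : ℝ) ≤ L := by exact_mod_cast hL
  have h1 : Real.exp (s * L * Real.log 2) ≤ K ^ s := by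
    rw [Real.rpow_def_of_pos hK0]
    apply Real.exp_le_exp.2
    have h2 : (L : ℝ) * Real.log 2 ≤ Real.log K := by
      rw [← Real.log_pow]
      exact Real.log_le_log (by positivity) hK
    nlinarith
  have h2 := Real.quadratic_le_exp_of_nonneg
    (show 0 ≤ s * L * Real.log 2 by have := Real.log_pos (one_lt_two); positivity)
  have hl2 := Real.log_two_gt_d9
  have h3 : s ^ 2 * L ^ 2 / 5 ≤ K ^ s := by
    have h4 : 0 ≤ s * L * Real.log 2 := by have := Real.log_pos (one_lt_two); positivity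
    have h5 : (0.48 : ℝ) ≤ Real.log 2 ^ 2 := by nlinarith
    have h6 : (s * L * Real.log 2) ^ 2 = s ^ 2 * L ^ 2 * Real.log 2 ^ 2 := by ring
    have h7 : 0 < s ^ 2 * (L : ℝ) ^ 2 := by positivity
    nlinarith
  rw [Real.rpow_neg hK0.le]
  have h8 : 0 < s ^ 2 * (L : ℝ) ^ 2 / 5 := by positivity
  calc (K ^ s)⁻¹ ≤ (s ^ 2 * (L : ℝ) ^ 2 / 5)⁻¹ := inv_anti₀ h8 h3
    _ = 5 / (s ^ 2 * L ^ 2) := by rw [inv_div]

theorem sqrt_nat (L : ℕ) (hL : 16 ≤ L) : √(L : ℝ) / 2 ≤ (Nat.sqrt L : ℝ) := by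
  have h1 : (L : ℝ) < ((Nat.sqrt L : ℝ) + 1) ^ 2 := by
    have := Nat.lt_succ_sqrt' L
    exact_mod_cast this
  have h2 : √(L : ℝ) < (Nat.sqrt L : ℝ) + 1 := by
    rw [show (Nat.sqrt L : ℝ) + 1 = √(((Nat.sqrt L : ℝ) + 1) ^ 2) by
      rw [Real.sqrt_sq (by positivity)]]
    exact Real.sqrt_lt_sqrt (by positivity) h1
  have h3 : (4 : ℝ) ≤ √(L : ℝ) := by
    rw [show (4 : ℝ) = √(4 ^ 2) by rw [Real.sqrt_sq (by norm_num)]]
    apply Real.sqrt_le_sqrt
    have : (16 : ℝ) ≤ L := by exact_mod_cast hL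
    linarith
  linarith

/-- the number of good representatives -/
theorem good_bound : ∃ (L0 : ℕ) (C : ℝ), 0 ≤ C ∧ ∀ (k : ℤ), k % 2 = 1 → k % 3 ≠ 0 → ∀ L : ℕ,
    L0 ≤ L → 2 ^ L ≤ k.natAbs → ∀ R : Finset ℤ,
    (∀ x ∈ R, (Int.gcd x k : ℤ) * (2 ^ (L / 20) * 3 ^ (L / 20 + Nat.sqrt L)) < |k|) →
    (∀ x ∈ R, L / 200 ≤ visits k |(k : ℝ)| x (L / 20)) →
    (∀ x ∈ R, ∀ y ∈ R, x ≠ y → ∀ i j : ℕ, (T k)^[i] x ≠ (T k)^[j] y) →
    (R.card : ℝ) ≤ C * |(k : ℝ)| / (L * √(L : ℝ)) := by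
  obtain ⟨t0, C1, hC1, hbad⟩ := bad_bound 100
  refine ⟨max 1600 (2 * t0), 800 * (1 + C1), by positivity, ?_⟩
  intro k hk h3 L hL0 hL R hg hv hR
  have hL1600 : 1600 ≤ L := le_trans (le_max_left _ _) hL0
  have hLt : 2 * t0 ≤ L := le_trans (le_max_right _ _) hL0
  have hk0 : k ≠ 0 := by rintro rfl; exact absurd hk (by decide)
  have hKpos : 0 < |(k : ℝ)| := abs_pos.2 (by exact_mod_cast hk0)
  have hpar := params k.natAbs L hL hL1600
  have hmain := classes_main k h3 hk (L / 20) (L / 200) (Nat.sqrt L) (L / 2) R hg hv hR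
  have hb := hbad (L / 2) (by omega) k hk (by
    rw [Int.abs_eq_natAbs]; exact_mod_cast hpar.1)
  have hmain' : (Nat.sqrt L : ℝ) * (((L / 200 : ℕ) : ℝ) * R.card) ≤ |(k : ℝ)| +
      Nat.sqrt L * (((bad1 k 100 (L / 2)).card : ℝ) + (bad2 k (L / 2)).card) := by
    have e : ((|k|.toNat : ℕ) : ℝ) = |(k : ℝ)| := by
      have : (((|k|.toNat : ℕ) : ℤ) : ℝ) = ((|k| : ℤ) : ℝ) := by
        rw [Int.toNat_of_nonneg (abs_nonneg k)]
      push_cast at this
      exact this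
    rw [← e]
    exact_mod_cast hmain
  set s := √(L : ℝ) with hs
  have hLr : (1600 : ℝ) ≤ L := by exact_mod_cast hL1600
  have hspos : 0 < s := Real.sqrt_pos.2 (by linarith)
  have hss : s * s = L := Real.mul_self_sqrt (by linarith)
  have hh : s / 2 ≤ (Nat.sqrt L : ℝ) := sqrt_nat L (by omega)
  have hhpos : (0 : ℝ) < Nat.sqrt L := by linarith
  have hm : (L : ℝ) / 400 ≤ ((L / 200 : ℕ) : ℝ) := by
    have h1 : L ≤ 400 * (L / 200) := by omega
    have h2 : (L : ℝ) ≤ 400 * ((L / 200 : ℕ) : ℝ) := by exact_mod_cast h1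
    linarith
  have ht : s / 2 ≤ √((L / 2 : ℕ) : ℝ) := by
    have h1 : L ≤ 4 * (L / 2) := by omega
    have h2 : (L : ℝ) / 4 ≤ ((L / 2 : ℕ) : ℝ) := by
      have : (L : ℝ) ≤ 4 * ((L / 2 : ℕ) : ℝ) := by exact_mod_cast h1
      linarith
    calc s / 2 = √((L : ℝ) / 4) := by
          rw [Real.sqrt_div' _ (by norm_num), show (4 : ℝ) = 2 ^ 2 by norm_num,
            Real.sqrt_sq (by norm_num)]
      _ ≤ _ := Real.sqrt_le_sqrt h2
  have htpos : 0 < √((L / 2 : ℕ) : ℝ) := by linarith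
  set b := ((bad1 k 100 (L / 2)).card : ℝ) + (bad2 k (L / 2)).card with hbdef
  have hb2 : b ≤ 2 * C1 * |(k : ℝ)| / s := by
    refine hb.trans ?_
    rw [div_le_div_iff₀ htpos hspos]
    have : 0 ≤ C1 * |(k : ℝ)| := by positivity
    nlinarith
  have h1 : ((L / 200 : ℕ) : ℝ) * R.card ≤ |(k : ℝ)| / Nat.sqrt L + b := by
    rw [← sub_le_iff_le_add, le_div_iff₀ hhpos]
    nlinarith
  have h2 : |(k : ℝ)| / Nat.sqrt L ≤ 2 * |(k : ℝ)| / s := by
    rw [div_le_div_iff₀ hhpos hspos]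
    nlinarith
  have h4 : (L : ℝ) / 400 * R.card ≤ (2 + 2 * C1) * |(k : ℝ)| / s := by
    have h5 : (L : ℝ) / 400 * R.card ≤ ((L / 200 : ℕ) : ℝ) * R.card :=
      mul_le_mul_of_nonneg_right hm (Nat.cast_nonneg _)
    have h6 : (2 + 2 * C1) * |(k : ℝ)| / s = 2 * |(k : ℝ)| / s + 2 * C1 * |(k : ℝ)| / s := by ring
    rw [h6]
    linarith
  rw [le_div_iff₀ (by positivity)] at h4 ⊢
  nlinarith

theorem visit_small (v K : ℝ) (hv : 1 ≤ v) (hK : 1 ≤ K) (J m : ℕ) (hm : 10 * m ≤ J)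
    (hJ : (2 : ℝ) ^ J ≤ K) :
    (2 * (K * v) / 2 ^ J + 1) * (√(K * v / K + 1) * 1.94 ^ J * (1.12 / 0.97) ^ m) ≤
      5 * K * (v * √v) * (1 / 2) ^ (J / 44) := by
  have hK0 : 0 < K := by linarith
  have h1 : 2 * (K * v) / 2 ^ J + 1 ≤ 3 * (K * v) / 2 ^ J := by
    have h2 : 1 ≤ K * v / 2 ^ J := by
      rw [le_div_iff₀ (by positivity)]
      nlinarith
    have e : 3 * (K * v) / 2 ^ J = 2 * (K * v) / 2 ^ J + K * v / 2 ^ J := by ring
    rw [e]; linarith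
  have h2 : √(K * v / K + 1) ≤ √2 * √v := by
    rw [← Real.sqrt_mul (by norm_num)]
    apply Real.sqrt_le_sqrt
    rw [mul_div_cancel_left₀ _ hK0.ne']
    linarith
  have h3 : (1.12 / 0.97 : ℝ) ^ m ≤ 1.0145 ^ J := by
    calc (1.12 / 0.97 : ℝ) ^ m ≤ (1.0145 ^ 10) ^ m := pow_le_pow_left₀ (by norm_num) (by norm_num) m
      _ = 1.0145 ^ (10 * m) := by rw [pow_mul]
      _ ≤ 1.0145 ^ J := pow_le_pow_right₀ (by norm_num) hm
  have h4 : (0.98407 : ℝ) ^ J ≤ (1 / 2) ^ (J / 44) := by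
    have e : J = 44 * (J / 44) + J % 44 := by omega
    calc (0.98407 : ℝ) ^ J = (0.98407 ^ 44) ^ (J / 44) * 0.98407 ^ (J % 44) := by
          conv_lhs => rw [e]
          rw [pow_add, pow_mul]
      _ ≤ (1 / 2) ^ (J / 44) * 1 := by
          apply mul_le_mul _ _ (by positivity) (by positivity)
          · exact pow_le_pow_left₀ (by norm_num) (by norm_num) _
          · exact pow_le_one₀ (by norm_num) (by norm_num)
      _ = _ := mul_one _
  have hs2 : √2 ≤ 1.5 := by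
    rw [show (1.5 : ℝ) = √(1.5 ^ 2) by rw [Real.sqrt_sq (by norm_num)]]
    apply Real.sqrt_le_sqrt; norm_num
  have hsv : 0 ≤ √v := Real.sqrt_nonneg v
  calc (2 * (K * v) / 2 ^ J + 1) * (√(K * v / K + 1) * 1.94 ^ J * (1.12 / 0.97) ^ m)
      ≤ (3 * (K * v) / 2 ^ J) * ((√2 * √v) * 1.94 ^ J * 1.0145 ^ J) := by
        apply mul_le_mul h1 _ (by positivity) (by positivity)
        apply mul_le_mul _ h3 (by positivity) (by positivity)
        exact mul_le_mul_of_nonneg_right h2 (by positivity)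
    _ = 3 * √2 * K * (v * √v) * (1.94 * 1.0145 / 2) ^ J := by
        rw [div_pow, mul_pow]; ring
    _ ≤ 3 * √2 * K * (v * √v) * 0.98407 ^ J := by
        apply mul_le_mul_of_nonneg_left _ (by positivity)
        exact pow_le_pow_left₀ (by norm_num) (by norm_num) J
    _ ≤ 3 * √2 * K * (v * √v) * (1 / 2) ^ (J / 44) :=
        mul_le_mul_of_nonneg_left h4 (by positivity)
    _ ≤ 5 * K * (v * √v) * (1 / 2) ^ (J / 44) := by
        apply mul_le_mul_of_nonneg_right _ (by positivity)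
        apply mul_le_mul_of_nonneg_right _ (by positivity)
        apply mul_le_mul_of_nonneg_right _ hK0.le
        linarith

end Pool.Agent.H621.Near
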