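import Mathlib
import Pool.Agent.H621.Near.Asym

set_option autoImplicit false

/-!
The number of classes of merging orbits and of periodic points near the origin.
-/

namespace Pool.Agent.H621.Near

open Pool.Agent.H621.Osc (T odds)

/-- a finite set of integers in an interval -/
theorem card_le_interval (R : Finset ℤ) (X : ℝ) (hX : 1 ≤ X) (hR : ∀ x ∈ R, |(x : ℝ)| ≤ X) :
    (R.card : ℝ) ≤ 3 * X := by
  have h1 : R ⊆ Finset.Icc (-(⌊X⌋₊ : ℤ)) ⌊X⌋₊ := by
    intro x hx
    rw [Finset.mem_Icc, ← abs_le]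
    have h2 : ((x.natAbs : ℕ) : ℝ) ≤ X := by
      have : ((x.natAbs : ℕ) : ℝ) = |(x : ℝ)| := by
        rw [Nat.cast_natAbs]; push_cast; rfl
      rw [this]; exact hR x hx
    have h3 : x.natAbs ≤ ⌊X⌋₊ := Nat.le_floor h2
    rw [Int.abs_eq_natAbs]
    exact_mod_cast h3
  have h2 := Finset.card_le_card h1
  rw [Int.card_Icc] at h2
  have h3 : R.card ≤ 2 * ⌊X⌋₊ + 1 := by omega
  have h4 : (⌊X⌋₊ : ℝ) ≤ X := Nat.floor_le (by linarith)
  have h5 : (R.card : ℝ) ≤ 2 * ⌊X⌋₊ + 1 := by exact_mod_cast h3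
  linarith

/-- the comparison of `L` and `log K` -/
theorem log_le_L (K : ℝ) (L : ℕ) (hL : 1600 ≤ L) (hK : 1 ≤ K) (hK2 : K < 2 ^ (L + 1)) :
    Real.log K ≤ L := by
  have h1 : Real.log K ≤ (L + 1) * Real.log 2 := by
    have := Real.log_le_log (by linarith) hK2.le
    rw [Real.log_pow] at this
    push_cast at this
    exact this
  have h2 := Real.log_two_lt_d9
  have h3 : (1600 : ℝ) ≤ L := by exact_mod_cast hL
  nlinarith [Real.log_nonneg hK]

theorem classes_upper : ∃ C : ℝ, 0 < C ∧ ∀ k : ℤ, k % 2 = 1 → k % 3 ≠ 0 → 2 ≤ |k| →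
    ∀ R : Finset ℤ, (∀ x ∈ R, |(x : ℝ)| ≤ |(k : ℝ)| ^ (1 + 1 / 2000 : ℝ)) →
    (∀ x ∈ R, ∀ y ∈ R, x ≠ y → ∀ i j : ℕ, (T k)^[i] x ≠ (T k)^[j] y) →
    (R.card : ℝ) ≤ C * |(k : ℝ)| / Real.log |(k : ℝ)| ^ (3 / 2 : ℝ) := by
  obtain ⟨L0, C1, hC1, hgood⟩ := good_bound
  set L1 := max L0 1600 with hL1
  have hL1' : 1600 ≤ L1 := le_max_right _ _
  refine ⟨C1 + 240 + 50 * 2600 ^ 2 + 3 * 2 ^ L1 * (L1 : ℝ) ^ 2, by positivity, ?_⟩
  intro k hk h3 hk2 R hX hR
  set K : ℝ := |(k : ℝ)| with hKdef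
  have hK2 : (2 : ℝ) ≤ K := by
    have : ((2 : ℤ) : ℝ) ≤ ((|k| : ℤ) : ℝ) := by exact_mod_cast hk2
    push_cast at this
    exact this
  have hK1 : 1 ≤ K := by linarith
  have hK0 : 0 < K := by linarith
  have hk0 : k ≠ 0 := by rintro rfl; exact absurd hk (by decide)
  have hKnat : ((k.natAbs : ℕ) : ℝ) = K := by
    rw [Nat.cast_natAbs]; push_cast; rfl
  set L := Nat.log 2 k.natAbs with hLdef
  have hLlow : 2 ^ L ≤ k.natAbs := Nat.pow_log_le_self 2 (Int.natAbs_ne_zero.2 hk0)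
  have hLhigh : k.natAbs < 2 ^ (L + 1) := Nat.lt_pow_succ_log_self (by norm_num) _
  have hKlow : (2 : ℝ) ^ L ≤ K := by rw [← hKnat]; exact_mod_cast hLlow
  have hKhigh : K < (2 : ℝ) ^ (L + 1) := by rw [← hKnat]; exact_mod_cast hLhigh
  have hlogpos : 0 < Real.log K := Real.log_pos (by linarith)
  set v : ℝ := K ^ (1 / 2000 : ℝ) with hv
  have hv1 : 1 ≤ v := Real.one_le_rpow hK1 (by norm_num)
  have hXe : K ^ (1 + 1 / 2000 : ℝ) = K * v := by
    rw [Real.rpow_add hK0, Real.rpow_one]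
  rw [hXe] at hX
  have hX1 : 1 ≤ K * v := by nlinarith
  rcases lt_or_ge L L1 with hsmall | hbig
  · -- small `k`
    have h1 := card_le_interval R (K * v) hX1 hX
    have h2 : K ≤ 2 ^ L1 := by
      have : (2 : ℝ) ^ (L + 1) ≤ 2 ^ L1 := pow_le_pow_right₀ (by norm_num) (by omega)
      linarith
    have h3 : v ≤ 2 ^ L1 := by
      have : v ≤ K ^ (1 : ℝ) := Real.rpow_le_rpow_of_exponent_le hK1 (by norm_num)
      rw [Real.rpow_one] at this
      linarith
    have h4 : Real.log K ≤ L1 := by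
      have h5 : Real.log K ≤ L1 * Real.log 2 := by
        have := Real.log_le_log hK0 h2
        rwa [Real.log_pow] at this
      have h6 := Real.log_two_lt_d9
      have h7 : (0 : ℝ) ≤ L1 := Nat.cast_nonneg _
      nlinarith
    have hL1r : (1 : ℝ) ≤ L1 := by
      have : (1600 : ℝ) ≤ L1 := by exact_mod_cast hL1'
      linarith
    have h5 : Real.log K ^ (3 / 2 : ℝ) ≤ (L1 : ℝ) ^ 2 := by
      calc Real.log K ^ (3 / 2 : ℝ) ≤ (L1 : ℝ) ^ (3 / 2 : ℝ) :=
            Real.rpow_le_rpow hlogpos.le h4 (by norm_num)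
        _ ≤ (L1 : ℝ) ^ (2 : ℝ) := Real.rpow_le_rpow_of_exponent_le hL1r (by norm_num)
        _ = (L1 : ℝ) ^ 2 := by rw [← Real.rpow_natCast]; norm_num
    rw [le_div_iff₀ (Real.rpow_pos_of_pos hlogpos _)]
    calc (R.card : ℝ) * Real.log K ^ (3 / 2 : ℝ) ≤ (3 * (K * v)) * (L1 : ℝ) ^ 2 :=
          mul_le_mul h1 h5 (Real.rpow_nonneg hlogpos.le _) (by positivity)
      _ ≤ (3 * (K * 2 ^ L1)) * (L1 : ℝ) ^ 2 := by
          apply mul_le_mul_of_nonneg_right _ (by positivity)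
          apply mul_le_mul_of_nonneg_left _ (by norm_num)
          exact mul_le_mul_of_nonneg_left h3 hK0.le
      _ = (3 * 2 ^ L1 * (L1 : ℝ) ^ 2) * K := by ring
      _ ≤ (C1 + 240 + 50 * 2600 ^ 2 + 3 * 2 ^ L1 * (L1 : ℝ) ^ 2) * K := by
          apply mul_le_mul_of_nonneg_right _ hK0.le
          linarith
  · -- large `k`
    have hL1600 : 1600 ≤ L := le_trans hL1' hbig
    have hLL0 : L0 ≤ L := le_trans (le_max_left _ _) hbig
    have hLr : (1600 : ℝ) ≤ L := by exact_mod_cast hL1600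
    have hL0r : (0 : ℝ) < L := by linarith
    have hpar := params k.natAbs L hLlow hL1600
    set G : ℕ := 2 ^ (L / 20) * 3 ^ (L / 20 + Nat.sqrt L) with hG
    have hG4 : (G : ℝ) ^ 4 ≤ K := by rw [← hKnat]; exact_mod_cast hpar.2
    have hG1 : (1 : ℝ) ≤ G := by
      have : 1 ≤ G := Nat.pos_of_ne_zero (by positivity)
      exact_mod_cast this
    have hG2 : (G : ℝ) ^ 2 ≤ √K := by
      apply Real.le_sqrt_of_sq_le
      calc ((G : ℝ) ^ 2) ^ 2 = (G : ℝ) ^ 4 := by ring
        _ ≤ K := hG4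
    set R1 := R.filter fun x => |k| ≤ (Int.gcd x k : ℤ) * G with hR1
    set R2 := R.filter fun x => ¬ |k| ≤ (Int.gcd x k : ℤ) * G ∧
      visits k K x (L / 20) < L / 200 with hR2
    set R3 := R.filter fun x => ¬ |k| ≤ (Int.gcd x k : ℤ) * G ∧
      ¬ visits k K x (L / 20) < L / 200 with hR3
    have hsub : R ⊆ R1 ∪ (R2 ∪ R3) := by
      intro x hx
      rw [Finset.mem_union, Finset.mem_union, hR1, hR2, hR3, Finset.mem_filter, Finset.mem_filter,
        Finset.mem_filter]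
      tauto
    have hcard : (R.card : ℝ) ≤ R1.card + (R2.card + R3.card) := by
      have := (Finset.card_le_card hsub).trans ((Finset.card_union_le _ _).trans
        (Nat.add_le_add_left (Finset.card_union_le _ _) _))
      exact_mod_cast this
    -- the three parts
    have hsL : √(L : ℝ) ≤ L := by
      rw [Real.sqrt_le_left (by linarith)]
      nlinarith
    have hsLpos : 0 < √(L : ℝ) := Real.sqrt_pos.2 hL0r
    have hLL : (L : ℝ) * √(L : ℝ) ≤ (L : ℝ) ^ 2 := by nlinarith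
    have hconv : ∀ A : ℝ, 0 ≤ A → A / (L : ℝ) ^ 2 ≤ A / (L * √(L : ℝ)) := fun A hA =>
      div_le_div_of_nonneg_left hA (by positivity) hLL
    have b1 : (R1.card : ℝ) ≤ 240 * K / (L * √(L : ℝ)) := by
      have h1 := gcd_large k hk0 G (K * v) (by positivity) R1
        (fun x hx => hX x (Finset.mem_filter.1 hx).1) (fun x hx => (Finset.mem_filter.1 hx).2)
      have h2 : (G : ℝ) * (2 * (K * v * G / |(k : ℝ)|) + 1) ≤ 3 * v * (G : ℝ) ^ 2 := by
        rw [← hKdef]
        have e : K * v * G / K = v * G := by field_simp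
        rw [e]
        have : (1 : ℝ) ≤ v * G := by nlinarith
        nlinarith
      have h3 : v * (G : ℝ) ^ 2 ≤ K * K ^ (-(1 / 4) : ℝ) := by
        have h4 : v ≤ K ^ (1 / 4 : ℝ) := Real.rpow_le_rpow_of_exponent_le hK1 (by norm_num)
        calc v * (G : ℝ) ^ 2 ≤ K ^ (1 / 4 : ℝ) * √K :=
              mul_le_mul h4 hG2 (by positivity) (Real.rpow_nonneg hK0.le _)
          _ = K * K ^ (-(1 / 4) : ℝ) := by
              rw [Real.sqrt_eq_rpow, ← Real.rpow_add hK0]
              nth_rewrite 2 [← Real.rpow_one K]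
              rw [← Real.rpow_add hK0]
              norm_num
      have h5 := pow_small K L (by omega) hKlow (1 / 4) (by norm_num)
      calc (R1.card : ℝ) ≤ 3 * v * (G : ℝ) ^ 2 := h1.trans h2
        _ = 3 * (v * (G : ℝ) ^ 2) := by ring
        _ ≤ 3 * (K * (5 / ((1 / 4) ^ 2 * L ^ 2))) := by
            apply mul_le_mul_of_nonneg_left _ (by norm_num)
            exact h3.trans (mul_le_mul_of_nonneg_left h5 hK0.le)
        _ = 240 * K / (L : ℝ) ^ 2 := by field_simp; ring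
        _ ≤ _ := hconv _ (by positivity)
    have b2 : (R2.card : ℝ) ≤ 50 * 2600 ^ 2 * K / (L * √(L : ℝ)) := by
      have h1 := exc_count k hk K hK0 le_rfl (L / 20) (L / 200) (K * v) (by positivity) R2
        (fun x hx => hX x (Finset.mem_filter.1 hx).1) (fun x hx => (Finset.mem_filter.1 hx).2.2)
      have h2 := visit_small v K hv1 hK1 (L / 20) (L / 200) (by omega)
        ((pow_le_pow_right₀ (by norm_num) (by omega)).trans hKlow)
      have e44 : L / 20 / 44 = L / 880 := by rw [Nat.div_div_eq_div_mul]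
      rw [e44] at h2
      have h3 : v * √v = K ^ (3 / 4000 : ℝ) := by
        rw [Real.sqrt_eq_rpow, hv, ← Real.rpow_mul hK0.le, ← Real.rpow_add hK0]
        norm_num
      have h4 : (1 / 2 : ℝ) ^ (L / 880) ≤ 2 * K ^ (-(1 / 880) : ℝ) := by
        have h5 : K ^ (1 / 880 : ℝ) ≤ 2 ^ (L / 880 + 1) := by
          have h6 : K ≤ ((2 : ℝ) ^ (L / 880 + 1)) ^ 880 := by
            rw [← pow_mul]
            exact hKhigh.le.trans (pow_le_pow_right₀ (by norm_num) (by omega))
          calc K ^ (1 / 880 : ℝ) ≤ (((2 : ℝ) ^ (L / 880 + 1)) ^ 880) ^ (1 / 880 : ℝ) :=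
                Real.rpow_le_rpow hK0.le h6 (by norm_num)
            _ = 2 ^ (L / 880 + 1) := by
                rw [← Real.rpow_natCast ((2 : ℝ) ^ (L / 880 + 1)) 880, ← Real.rpow_mul (by positivity)]
                norm_num
        rw [Real.rpow_neg hK0.le]
        have h6 : 0 < K ^ (1 / 880 : ℝ) := Real.rpow_pos_of_pos hK0 _
        rw [one_div_pow, ← div_eq_mul_inv, div_le_div_iff₀ (by positivity) h6, one_mul]
        rw [pow_succ] at h5
        linarith
      have h5 := pow_small K L (by omega) hKlow (1 / 2600) (by norm_num)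
      have h6 : K ^ (3 / 4000 : ℝ) * K ^ (-(1 / 880) : ℝ) ≤ K ^ (-(1 / 2600) : ℝ) := by
        rw [← Real.rpow_add hK0]
        apply Real.rpow_le_rpow_of_exponent_le hK1
        norm_num
      calc (R2.card : ℝ) ≤ 5 * K * (v * √v) * (1 / 2) ^ (L / 880) := h1.trans h2
        _ ≤ 5 * K * K ^ (3 / 4000 : ℝ) * (2 * K ^ (-(1 / 880) : ℝ)) := by
            rw [h3]
            apply mul_le_mul_of_nonneg_left h4 (by positivity)
        _ = 10 * K * (K ^ (3 / 4000 : ℝ) * K ^ (-(1 / 880) : ℝ)) := by ring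
        _ ≤ 10 * K * (5 / ((1 / 2600) ^ 2 * L ^ 2)) := by
            apply mul_le_mul_of_nonneg_left (h6.trans h5) (by positivity)
        _ = 50 * 2600 ^ 2 * K / (L : ℝ) ^ 2 := by field_simp; ring
        _ ≤ _ := hconv _ (by positivity)
    have b3 : (R3.card : ℝ) ≤ C1 * K / (L * √(L : ℝ)) := by
      apply hgood k hk h3 L hLL0 hLlow R3
      · intro x hx
        have := (Finset.mem_filter.1 hx).2.1
        rw [hG] at this
        push_cast at this
        exact not_le.1 this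
      · intro x hx
        exact not_lt.1 (Finset.mem_filter.1 hx).2.2
      · intro x hx y hy hne
        exact hR x (Finset.mem_filter.1 hx).1 y (Finset.mem_filter.1 hy).1 hne
    have htot : (R.card : ℝ) ≤ (C1 + 240 + 50 * 2600 ^ 2) * K / (L * √(L : ℝ)) := by
      have e : (C1 + 240 + 50 * 2600 ^ 2) * K / (L * √(L : ℝ)) = 240 * K / (L * √(L : ℝ)) +
        (50 * 2600 ^ 2 * K / (L * √(L : ℝ)) + C1 * K / (L * √(L : ℝ))) := by ring
      rw [e]; linarith
    have hlogL := log_le_L K L hL1600 hK1 hKhigh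
    have hden : Real.log K ^ (3 / 2 : ℝ) ≤ L * √(L : ℝ) := by
      have e : (L : ℝ) * √(L : ℝ) = (L : ℝ) ^ (3 / 2 : ℝ) := by
        rw [Real.sqrt_eq_rpow]
        nth_rewrite 1 [← Real.rpow_one (L : ℝ)]
        rw [← Real.rpow_add hL0r]
        norm_num
      rw [e]
      exact Real.rpow_le_rpow hlogpos.le hlogL (by norm_num)
    have hlp : 0 < Real.log K ^ (3 / 2 : ℝ) := Real.rpow_pos_of_pos hlogpos _
    calc (R.card : ℝ) ≤ (C1 + 240 + 50 * 2600 ^ 2) * K / (L * √(L : ℝ)) := htot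
      _ ≤ (C1 + 240 + 50 * 2600 ^ 2) * K / Real.log K ^ (3 / 2 : ℝ) :=
          div_le_div_of_nonneg_left (by positivity) hlp hden
      _ ≤ (C1 + 240 + 50 * 2600 ^ 2 + 3 * 2 ^ L1 * (L1 : ℝ) ^ 2) * K /
          Real.log K ^ (3 / 2 : ℝ) := by
          apply div_le_div_of_nonneg_right _ hlp.le
          apply mul_le_mul_of_nonneg_right _ hK0.le
          have : 0 ≤ 3 * 2 ^ L1 * (L1 : ℝ) ^ 2 := by positivity
          linarith

end Pool.Agent.H621.Near
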