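import Mathlib
import Pool.Agent.H621.Near.Classes
import Pool.Agent.H621.Near.Lower
import Pool.Agent.H621.Osc.Cyc

set_option autoImplicit false

/-!
Periodic points near the origin; the sets of the cycles; the lower bounds.
-/

namespace Pool.Agent.H621.Near

open Pool.Agent.H621.Osc (T odds IsCycle cyc_eq cyc_iter)

theorem div_half (A s h : ℝ) (hA : 0 ≤ A) (hs : 0 < s) (hh : s / 2 ≤ h) : A / h ≤ 2 * A / s := by
  have hh0 : 0 < h := by linarith
  rw [div_le_div_iff₀ hh0 hs]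
  nlinarith

theorem from_main (h R K b : ℝ) (hh : 0 < h) (hm : h * R ≤ K + h * b) : R ≤ K / h + b := by
  rw [← sub_le_iff_le_add, le_div_iff₀ hh]
  linarith

theorem periodic_upper (B : ℕ) : ∃ C : ℝ, 0 < C ∧ ∀ k : ℤ, k % 2 = 1 → k % 3 ≠ 0 → 2 ≤ |k| →
    ∀ R : Finset ℤ, (∀ x ∈ R, |(x : ℝ)| ≤ B * |(k : ℝ)|) →
    (∀ x ∈ R, ∃ p : ℕ, 1 ≤ p ∧ (T k)^[p] x = x) →
    (R.card : ℝ) ≤ C * |(k : ℝ)| / √(Real.log |(k : ℝ)|) := by
  obtain ⟨t0, C1, hC1, hbad⟩ := bad_bound B
  set L1 := max 1600 (2 * t0) with hL1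
  have hL1' : 1600 ≤ L1 := le_max_left _ _
  refine ⟨2 + 2 * C1 + 20 * (2 * B + 1) + 3 * (B + 1) * L1, by positivity, ?_⟩
  intro k hk h3 hk2 R hX hR
  set K : ℝ := |(k : ℝ)| with hKdef
  have hK2 : (2 : ℝ) ≤ K := by
    have : ((2 : ℤ) : ℝ) ≤ ((|k| : ℤ) : ℝ) := by exact_mod_cast hk2
    push_cast at this
    exact this
  have hK1 : 1 ≤ K := by linarith
  have hK0 : 0 < K := by linarith
  have hk0 : k ≠ 0 := by rintro rfl; exact absurd hk (by decide)
  have hKnat : ((k.natAbs : ℕ) : ℝ) = K := by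
    rw [Nat.cast_natAbs]; push_cast; rfl
  set L := Nat.log 2 k.natAbs with hLdef
  have hLlow : 2 ^ L ≤ k.natAbs := Nat.pow_log_le_self 2 (Int.natAbs_ne_zero.2 hk0)
  have hLhigh : k.natAbs < 2 ^ (L + 1) := Nat.lt_pow_succ_log_self (by norm_num) _
  have hKlow : (2 : ℝ) ^ L ≤ K := by rw [← hKnat]; exact_mod_cast hLlow
  have hKhigh : K < (2 : ℝ) ^ (L + 1) := by rw [← hKnat]; exact_mod_cast hLhigh
  have hlogpos : 0 < Real.log K := Real.log_pos (by linarith)
  have hB0 : (0 : ℝ) ≤ B := Nat.cast_nonneg B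
  rcases lt_or_ge L L1 with hsmall | hbig
  · have h1 := card_le_interval R ((B + 1) * K) (by nlinarith) (fun x hx => by
      have := hX x hx
      nlinarith)
    have h2 : K ≤ 2 ^ L1 := by
      have : (2 : ℝ) ^ (L + 1) ≤ 2 ^ L1 := pow_le_pow_right₀ (by norm_num) (by omega)
      linarith
    have h4 : Real.log K ≤ L1 := by
      have h5 : Real.log K ≤ L1 * Real.log 2 := by
        have := Real.log_le_log hK0 h2
        rwa [Real.log_pow] at this
      have h6 := Real.log_two_lt_d9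
      have h7 : (0 : ℝ) ≤ L1 := Nat.cast_nonneg _
      nlinarith
    have hL1r : (1 : ℝ) ≤ L1 := by
      have : (1600 : ℝ) ≤ L1 := by exact_mod_cast hL1'
      linarith
    have h5 : √(Real.log K) ≤ (L1 : ℝ) := by
      rw [Real.sqrt_le_left (by linarith)]
      nlinarith
    rw [le_div_iff₀ (Real.sqrt_pos.2 hlogpos)]
    calc (R.card : ℝ) * √(Real.log K) ≤ (3 * ((B + 1) * K)) * L1 :=
          mul_le_mul h1 h5 (Real.sqrt_nonneg _) (by positivity)
      _ = (3 * (B + 1) * L1) * K := by ring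
      _ ≤ (2 + 2 * C1 + 20 * (2 * B + 1) + 3 * (B + 1) * L1) * K := by
          apply mul_le_mul_of_nonneg_right _ hK0.le
          have : 0 ≤ 2 + 2 * C1 + 20 * (2 * (B : ℝ) + 1) := by positivity
          linarith
  · have hL1600 : 1600 ≤ L := le_trans hL1' hbig
    have hLt : 2 * t0 ≤ L := le_trans (le_max_right _ _) hbig
    have hLr : (1600 : ℝ) ≤ L := by exact_mod_cast hL1600
    have hL0r : (0 : ℝ) < L := by linarith
    have hpar := params k.natAbs L hLlow hL1600
    set G : ℕ := 2 ^ 0 * 3 ^ (0 + Nat.sqrt L) with hG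
    have hGle : G ≤ 2 ^ (L / 20) * 3 ^ (L / 20 + Nat.sqrt L) := by
      rw [hG]
      apply Nat.mul_le_mul
      · exact Nat.pow_le_pow_right (by norm_num) (by omega)
      · exact Nat.pow_le_pow_right (by norm_num) (by omega)
    have hG4 : (G : ℝ) ^ 4 ≤ K := by
      rw [← hKnat]
      exact_mod_cast (Nat.pow_le_pow_left hGle 4).trans hpar.2
    have hG1 : (1 : ℝ) ≤ G := by
      have : 1 ≤ G := Nat.pos_of_ne_zero (by positivity)
      exact_mod_cast this
    have hG2 : (G : ℝ) ^ 2 ≤ √K := by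
      apply Real.le_sqrt_of_sq_le
      calc ((G : ℝ) ^ 2) ^ 2 = (G : ℝ) ^ 4 := by ring
        _ ≤ K := hG4
    set R1 := R.filter fun x => |k| ≤ (Int.gcd x k : ℤ) * G with hR1
    set R3 := R.filter fun x => ¬ |k| ≤ (Int.gcd x k : ℤ) * G with hR3
    have hcard : (R.card : ℝ) = R1.card + R3.card := by
      have := Finset.card_filter_add_card_filter_not (s := R) (fun x => |k| ≤ (Int.gcd x k : ℤ) * G)
      exact_mod_cast this.symm
    set s := √(L : ℝ) with hs
    have hspos : 0 < s := Real.sqrt_pos.2 hL0r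
    have hss : s * s = L := Real.mul_self_sqrt hL0r.le
    have hs1 : 1 ≤ s := by nlinarith
    have b1 : (R1.card : ℝ) ≤ 20 * (2 * B + 1) * K / s := by
      have h1 := gcd_large k hk0 G (B * K) (by positivity) R1
        (fun x hx => hX x (Finset.mem_filter.1 hx).1) (fun x hx => (Finset.mem_filter.1 hx).2)
      have h2 : (G : ℝ) * (2 * (B * K * G / |(k : ℝ)|) + 1) ≤ (2 * B + 1) * (G : ℝ) ^ 2 := by
        rw [← hKdef]
        have e : B * K * G / K = B * G := by field_simp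
        rw [e]
        nlinarith [mul_nonneg hB0 (by linarith : (0 : ℝ) ≤ G)]
      have h5 := pow_small K L (by omega) hKlow (1 / 2) (by norm_num)
      have h6 : √K = K * K ^ (-(1 / 2) : ℝ) := by
        rw [Real.sqrt_eq_rpow]
        nth_rewrite 2 [← Real.rpow_one K]
        rw [← Real.rpow_add hK0]
        norm_num
      calc (R1.card : ℝ) ≤ (2 * B + 1) * (G : ℝ) ^ 2 := h1.trans h2
        _ ≤ (2 * B + 1) * (K * (5 / ((1 / 2) ^ 2 * L ^ 2))) := by
            apply mul_le_mul_of_nonneg_left _ (by positivity)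
            rw [h6] at hG2
            exact hG2.trans (mul_le_mul_of_nonneg_left h5 hK0.le)
        _ = 20 * (2 * B + 1) * K / (L : ℝ) ^ 2 := by field_simp; ring
        _ ≤ _ := by
            apply div_le_div_of_nonneg_left (by positivity) hspos
            nlinarith
    have b3 : (R3.card : ℝ) ≤ (2 + 2 * C1) * K / s := by
      have hmain := periodic_main k h3 hk B (Nat.sqrt L) (L / 2) R3
        (fun x hx => by
          have h1 := hX x (Finset.mem_filter.1 hx).1
          have h2 : ((|x| : ℤ) : ℝ) ≤ (((B : ℤ) * |k| : ℤ) : ℝ) := by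
            push_cast; exact h1
          exact_mod_cast h2)
        (fun x hx => by
          have := (Finset.mem_filter.1 hx).2
          rw [hG] at this
          push_cast at this ⊢
          exact not_le.1 this)
        (fun x hx => hR x (Finset.mem_filter.1 hx).1)
      have hb := hbad (L / 2) (by omega) k hk (by
        rw [Int.abs_eq_natAbs]; exact_mod_cast hpar.1)
      have hmain' : (Nat.sqrt L : ℝ) * R3.card ≤ K +
          Nat.sqrt L * (((bad1 k B (L / 2)).card : ℝ) + (bad2 k (L / 2)).card) := by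
        have e : ((|k|.toNat : ℕ) : ℝ) = K := by
          have : (((|k|.toNat : ℕ) : ℤ) : ℝ) = ((|k| : ℤ) : ℝ) := by
            rw [Int.toNat_of_nonneg (abs_nonneg k)]
          push_cast at this
          exact this
        rw [← e]
        exact_mod_cast hmain
      have hh : s / 2 ≤ (Nat.sqrt L : ℝ) := sqrt_nat L (by omega)
      have hhpos : (0 : ℝ) < Nat.sqrt L := by linarith
      have ht : s / 2 ≤ √((L / 2 : ℕ) : ℝ) := by
        have h1 : L ≤ 4 * (L / 2) := by omega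
        have h2 : (L : ℝ) / 4 ≤ ((L / 2 : ℕ) : ℝ) := by
          have : (L : ℝ) ≤ 4 * ((L / 2 : ℕ) : ℝ) := by exact_mod_cast h1
          linarith
        calc s / 2 = √((L : ℝ) / 4) := by
              rw [Real.sqrt_div' _ (by norm_num), show (4 : ℝ) = 2 ^ 2 by norm_num,
                Real.sqrt_sq (by norm_num)]
          _ ≤ _ := Real.sqrt_le_sqrt h2
      have htpos : 0 < √((L / 2 : ℕ) : ℝ) := by linarith
      set b := ((bad1 k B (L / 2)).card : ℝ) + (bad2 k (L / 2)).card with hbdef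
      have hb2 : b ≤ 2 * (C1 * K) / s :=
        hb.trans (div_half (C1 * K) s _ (by positivity) hspos ht)
      have h1 : (R3.card : ℝ) ≤ K / Nat.sqrt L + b := from_main _ _ _ _ hhpos hmain'
      have h2 : K / Nat.sqrt L ≤ 2 * K / s := div_half K s _ hK0.le hspos hh
      have h6 : (2 + 2 * C1) * K / s = 2 * K / s + 2 * (C1 * K) / s := by ring
      rw [h6]
      linarith
    have hlogL := log_le_L K L hL1600 hK1 hKhigh
    have hden : √(Real.log K) ≤ s := Real.sqrt_le_sqrt hlogL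
    have hlp : 0 < √(Real.log K) := Real.sqrt_pos.2 hlogpos
    calc (R.card : ℝ) ≤ (2 + 2 * C1 + 20 * (2 * B + 1)) * K / s := by
          rw [hcard]
          have e : (2 + 2 * C1 + 20 * (2 * (B : ℝ) + 1)) * K / s =
            20 * (2 * B + 1) * K / s + (2 + 2 * C1) * K / s := by ring
          rw [e]; linarith
      _ ≤ (2 + 2 * C1 + 20 * (2 * B + 1)) * K / √(Real.log K) :=
          div_le_div_of_nonneg_left (by positivity) hlp hden
      _ ≤ _ := by
          apply div_le_div_of_nonneg_right _ hlp.le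
          apply mul_le_mul_of_nonneg_right _ hK0.le
          have : 0 ≤ 3 * ((B : ℝ) + 1) * L1 := by positivity
          linarith

/-- two cycles with a common element are equal -/
theorem cyc_unique {k : ℤ} {Z Z' : Finset ℤ} (h : IsCycle k Z) (h' : IsCycle k Z') (z : ℤ)
    (hz : z ∈ Z) (hz' : z ∈ Z') : Z = Z' := by
  obtain ⟨h1, h2, h3⟩ := cyc_eq h z hz
  obtain ⟨h1', h2', h3'⟩ := cyc_eq h' z hz'
  apply Finset.Subset.antisymm
  · intro w hw
    rw [h3, Finset.mem_image] at hw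
    obtain ⟨i, _, rfl⟩ := hw
    exact cyc_iter h' z hz' i
  · intro w hw
    rw [h3', Finset.mem_image] at hw
    obtain ⟨i, _, rfl⟩ := hw
    exact cyc_iter h z hz i

/-- from sets of integers to sets of cycles -/
theorem cycles_count (k : ℤ) (X N : ℝ)
    (h : ∀ R : Finset ℤ, (∀ x ∈ R, |(x : ℝ)| ≤ X) →
      (∀ x ∈ R, ∀ y ∈ R, x ≠ y → ∀ i j : ℕ, (T k)^[i] x ≠ (T k)^[j] y) → (R.card : ℝ) ≤ N) :
    {Z : Finset ℤ | IsCycle k Z ∧ ∃ x ∈ Z, |(x : ℝ)| ≤ X}.Finite ∧
      ({Z : Finset ℤ | IsCycle k Z ∧ ∃ x ∈ Z, |(x : ℝ)| ≤ X}.ncard : ℝ) ≤ N := by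
  classical
  set S := {Z : Finset ℤ | IsCycle k Z ∧ ∃ x ∈ Z, |(x : ℝ)| ≤ X} with hS
  have hrep : ∀ Z : Finset ℤ, ∃ x : ℤ, Z ∈ S → x ∈ Z ∧ |(x : ℝ)| ≤ X := by
    intro Z
    by_cases hZ : Z ∈ S
    · obtain ⟨_, x, hx⟩ := hZ
      exact ⟨x, fun _ => hx⟩
    · exact ⟨0, fun h => absurd h hZ⟩
  choose f hf using hrep
  have hinj : Set.InjOn f S := by
    intro Z hZ Z' hZ' heq
    exact cyc_unique hZ.1 hZ'.1 (f Z) (hf Z hZ).1 (by rw [heq]; exact (hf Z' hZ').1)
  have himg : (f '' S).Finite := by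
    apply Set.Finite.subset (Set.finite_Icc (-(⌊X⌋)) ⌊X⌋)
    rintro x ⟨Z, hZ, rfl⟩
    have h1 := (hf Z hZ).2
    rw [Set.mem_Icc, ← abs_le]
    apply Int.le_floor.2
    push_cast
    exact h1
  have hfin : S.Finite := Set.Finite.of_finite_image himg hinj
  refine ⟨hfin, ?_⟩
  have h1 : S.ncard = himg.toFinset.card := by
    rw [← hinj.ncard_image, Set.ncard_eq_toFinset_card _ himg]
  rw [h1]
  apply h
  · intro x hx
    rw [Set.Finite.mem_toFinset] at hx
    obtain ⟨Z, hZ, rfl⟩ := hx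
    exact (hf Z hZ).2
  · intro x hx y hy hne i j heq
    rw [Set.Finite.mem_toFinset] at hx hy
    obtain ⟨Z, hZ, rfl⟩ := hx
    obtain ⟨Z', hZ', rfl⟩ := hy
    apply hne
    have h2 := cyc_iter hZ.1 _ (hf Z hZ).1 i
    have h3 := cyc_iter hZ'.1 _ (hf Z' hZ').1 j
    rw [heq] at h2
    rw [cyc_unique hZ.1 hZ'.1 _ h2 h3]

theorem central_sq (n : ℕ) (hn : 1 ≤ n) : 16 ^ n ≤ 4 * n * (Nat.centralBinom n) ^ 2 := by
  induction n, hn using Nat.le_induction with
  | base => decide
  | succ n hn ih =>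
    have h1 := Nat.succ_mul_centralBinom_succ n
    have h2 : (n + 1) * (4 * (n + 1) * (Nat.centralBinom (n + 1)) ^ 2) =
        4 * (2 * (2 * n + 1) * Nat.centralBinom n) ^ 2 := by
      rw [← h1]; ring
    have h3 : (n + 1) * 16 ^ (n + 1) ≤ (n + 1) * (4 * (n + 1) * (Nat.centralBinom (n + 1)) ^ 2) := by
      rw [h2]
      calc (n + 1) * 16 ^ (n + 1) = 16 * (n + 1) * 16 ^ n := by rw [pow_succ]; ring
        _ ≤ 16 * (n + 1) * (4 * n * (Nat.centralBinom n) ^ 2) := Nat.mul_le_mul_left _ ih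
        _ = 16 * (4 * n * (n + 1)) * (Nat.centralBinom n) ^ 2 := by ring
        _ ≤ 16 * (2 * n + 1) ^ 2 * (Nat.centralBinom n) ^ 2 := by
            apply Nat.mul_le_mul_right
            apply Nat.mul_le_mul_left
            nlinarith
        _ = _ := by ring
    exact Nat.le_of_mul_le_mul_left h3 (Nat.succ_pos n)

end Pool.Agent.H621.Near
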