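import Mathlib
import Pool.Agent.H621.Near.Periodic

set_option autoImplicit false

/-!
The lower bounds for `k = 4^n - 3^n`.
-/

namespace Pool.Agent.H621.Near

open Pool.Agent.H621.Osc (T odds IsCycle cyc_eq cyc_iter)

theorem k_bounds (n : ℕ) (hn : 2 ≤ n) : (0 : ℝ) < 4 ^ n - 3 ^ n ∧ (4 : ℝ) ^ n - 3 ^ n ≤ 4 ^ n ∧
    (n : ℝ) ≤ 3 / 2 * Real.log (4 ^ n - 3 ^ n) ∧ 0 < Real.log ((4 : ℝ) ^ n - 3 ^ n) := by
  have hn1 : (2 : ℝ) ≤ n := by exact_mod_cast hn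
  obtain ⟨m, rfl⟩ : ∃ m, n = m + 1 := ⟨n - 1, by omega⟩
  have h1 : (3 : ℝ) ^ m ≤ 4 ^ m := pow_le_pow_left₀ (by norm_num) (by norm_num) m
  have h2 : (4 : ℝ) ^ m ≤ 4 ^ (m + 1) - 3 ^ (m + 1) := by
    rw [pow_succ, pow_succ]; linarith
  have h3 : (0 : ℝ) < 4 ^ m := by positivity
  have h4 : (m : ℝ) * (2 * Real.log 2) ≤ Real.log (4 ^ (m + 1) - 3 ^ (m + 1)) := by
    have h5 := Real.log_le_log h3 h2
    rw [Real.log_pow, show (4 : ℝ) = 2 ^ 2 by norm_num, Real.log_pow] at h5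
    push_cast at h5
    rw [show (2 : ℝ) ^ 2 = 4 by norm_num] at h5
    exact h5
  have hl2 := Real.log_two_gt_d9
  push_cast at hn1 ⊢
  have hm1 : (1 : ℝ) ≤ m := by linarith
  refine ⟨by linarith, ?_, ?_, ?_⟩
  · have : (0 : ℝ) < 3 ^ (m + 1) := by positivity
    linarith
  · nlinarith
  · nlinarith

theorem cb_lower (n : ℕ) (hn : 1 ≤ n) : (4 : ℝ) ^ n ≤ 2 * √(n : ℝ) * Nat.centralBinom n := by
  have h1 := central_sq n hn
  have h2 : (16 : ℝ) ^ n ≤ 4 * n * (Nat.centralBinom n : ℝ) ^ 2 := by exact_mod_cast h1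
  have h3 : ((4 : ℝ) ^ n) ^ 2 ≤ (2 * √(n : ℝ) * Nat.centralBinom n) ^ 2 := by
    rw [mul_pow, mul_pow, Real.sq_sqrt (Nat.cast_nonneg n), ← pow_mul, mul_comm n 2, pow_mul]
    norm_num
    linarith
  exact (pow_le_pow_iff_left₀ (by positivity) (by positivity) (by norm_num)).1 h3

theorem lower_cyc (n : ℕ) (hn : 2 ≤ n) :
    1 / 20 * (((4 ^ n - 3 ^ n : ℤ) : ℝ)) / Real.log ((4 ^ n - 3 ^ n : ℤ) : ℝ) ^ (3 / 2 : ℝ) ≤
      ({Z : Finset ℤ | IsCycle (4 ^ n - 3 ^ n) Z ∧ ∃ x ∈ Z, 0 < x ∧ x ≤ 4 ^ n - 3 ^ n}.ncard : ℝ) := by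
  classical
  obtain ⟨R, hR1, hR2, hR3⟩ := Pool.Agent.H872.Near.lowerCycles n (by omega)
  set k : ℤ := 4 ^ n - 3 ^ n with hk
  set S := {Z : Finset ℤ | IsCycle k Z ∧ ∃ x ∈ Z, 0 < x ∧ x ≤ k} with hS
  obtain ⟨kpos, kle, nle, lpos⟩ := k_bounds n hn
  have hkr : (k : ℝ) = 4 ^ n - 3 ^ n := by rw [hk]; push_cast; ring
  rw [← hkr] at kpos kle nle lpos
  -- finiteness
  have hfin : S.Finite := by
    have h1 := (cycles_count k (k : ℝ) (3 * k) (fun R hR _ => card_le_interval R k (by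
      have : (1 : ℤ) ≤ k := by
        have : (0 : ℤ) < k := by exact_mod_cast kpos
        omega
      exact_mod_cast this) hR)).1
    apply h1.subset
    rintro Z ⟨hZ, x, hx, hx0, hxk⟩
    refine ⟨hZ, x, hx, ?_⟩
    rw [abs_of_pos (by exact_mod_cast hx0)]
    exact_mod_cast hxk
  have hcard : R.card ≤ S.ncard := by
    have h1 : (R.image fun x => (Finset.range (2 * n)).image fun i => (T k)^[i] x).card = R.card := by
      apply Finset.card_image_of_injOn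
      intro x hx y hy heq
      simp only at heq
      by_contra hne
      have h2 : x ∈ (Finset.range (2 * n)).image fun i => (T k)^[i] x := by
        rw [Finset.mem_image]
        exact ⟨0, Finset.mem_range.2 (by omega), rfl⟩
      rw [heq, Finset.mem_image] at h2
      obtain ⟨i, _, hi⟩ := h2
      exact hR2 x hx y hy hne 0 i hi.symm
    rw [← h1, ← Set.ncard_coe_finset]
    apply Set.ncard_le_ncard _ hfin
    intro Z hZ
    rw [Finset.mem_coe, Finset.mem_image] at hZ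
    obtain ⟨x, hx, rfl⟩ := hZ
    obtain ⟨h2, h3, h4⟩ := hR1 x hx
    refine ⟨⟨x, 2 * n, by omega, h4, rfl⟩, x, ?_, by omega, h3⟩
    rw [Finset.mem_image]
    exact ⟨0, Finset.mem_range.2 (by omega), rfl⟩
  have hcb := cb_lower n (by omega)
  have hR3r : (Nat.centralBinom n : ℝ) ≤ 2 * n * R.card := by exact_mod_cast hR3
  have hcardr : (R.card : ℝ) ≤ S.ncard := by exact_mod_cast hcard
  set l := Real.log (k : ℝ) with hl
  have hn0 : (0 : ℝ) < n := by exact_mod_cast (by omega : 0 < n)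
  have hs : √(n : ℝ) ≤ √(3 / 2 * l) := Real.sqrt_le_sqrt nle
  have hl32 : l ^ (3 / 2 : ℝ) = l * √l := by
    rw [Real.sqrt_eq_rpow]
    nth_rewrite 2 [← Real.rpow_one l]
    rw [← Real.rpow_add lpos]
    norm_num
  have hs2 : √(3 / 2 * l) ≤ 3 / 2 * √l := by
    rw [Real.sqrt_mul (by norm_num)]
    apply mul_le_mul_of_nonneg_right _ (Real.sqrt_nonneg l)
    rw [Real.sqrt_le_left (by norm_num)]
    norm_num
  have hsl : 0 < √l := Real.sqrt_pos.2 lpos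
  have hRR : (0 : ℝ) ≤ R.card := Nat.cast_nonneg _
  rw [hl32, div_le_iff₀ (by positivity)]
  have h5 : (k : ℝ) ≤ 2 * √(n : ℝ) * (2 * n * R.card) :=
    kle.trans (hcb.trans (mul_le_mul_of_nonneg_left hR3r (by positivity)))
  have h6 : √(n : ℝ) * n ≤ (3 / 2 * √l) * (3 / 2 * l) :=
    mul_le_mul (hs.trans hs2) nle hn0.le (by positivity)
  have h7 : (k : ℝ) ≤ 9 * (l * √l) * R.card := by
    calc (k : ℝ) ≤ 2 * √(n : ℝ) * (2 * n * R.card) := h5
      _ = 4 * (√(n : ℝ) * n) * R.card := by ring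
      _ ≤ 4 * ((3 / 2 * √l) * (3 / 2 * l)) * R.card := by
          apply mul_le_mul_of_nonneg_right _ hRR
          linarith
      _ = 9 * (l * √l) * R.card := by ring
  have h8 : 9 * (l * √l) * R.card ≤ 9 * (l * √l) * S.ncard :=
    mul_le_mul_of_nonneg_left hcardr (by positivity)
  have h9 : 0 ≤ (l * √l) * (S.ncard : ℝ) := by positivity
  nlinarith

theorem lower_per (n : ℕ) (hn : 2 ≤ n) :
    1 / 20 * (((4 ^ n - 3 ^ n : ℤ) : ℝ)) / √(Real.log ((4 ^ n - 3 ^ n : ℤ) : ℝ)) ≤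
      ({x : ℤ | 0 < x ∧ x ≤ 99 * (4 ^ n - 3 ^ n) ∧
        ∃ p : ℕ, 1 ≤ p ∧ (T (4 ^ n - 3 ^ n))^[p] x = x}.ncard : ℝ) := by
  obtain ⟨P, hP1, hP2⟩ := Pool.Agent.H872.Near.lowerPeriodic n (by omega)
  set k : ℤ := 4 ^ n - 3 ^ n with hk
  set S := {x : ℤ | 0 < x ∧ x ≤ 99 * k ∧ ∃ p : ℕ, 1 ≤ p ∧ (T k)^[p] x = x} with hS
  obtain ⟨kpos, kle, nle, lpos⟩ := k_bounds n hn
  have hkr : (k : ℝ) = 4 ^ n - 3 ^ n := by rw [hk]; push_cast; ring
  rw [← hkr] at kpos kle nle lpos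
  have hfin : S.Finite := by
    apply (Set.finite_Icc 0 (99 * k)).subset
    rintro x ⟨h1, h2, _⟩
    exact ⟨h1.le, h2⟩
  have hcard : P.card ≤ S.ncard := by
    rw [← Set.ncard_coe_finset]
    apply Set.ncard_le_ncard _ hfin
    intro x hx
    rw [Finset.mem_coe] at hx
    obtain ⟨h1, h2, h3⟩ := hP1 x hx
    exact ⟨by omega, h2, 2 * n, by omega, h3⟩
  have hcb := cb_lower n (by omega)
  have hP2r : (Nat.centralBinom n : ℝ) ≤ 5 * P.card := by exact_mod_cast hP2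
  have hcardr : (P.card : ℝ) ≤ S.ncard := by exact_mod_cast hcard
  set l := Real.log (k : ℝ) with hl
  have hs : √(n : ℝ) ≤ √(3 / 2 * l) := Real.sqrt_le_sqrt nle
  have hs2 : √(3 / 2 * l) ≤ 3 / 2 * √l := by
    rw [Real.sqrt_mul (by norm_num)]
    apply mul_le_mul_of_nonneg_right _ (Real.sqrt_nonneg l)
    rw [Real.sqrt_le_left (by norm_num)]
    norm_num
  have hsl : 0 < √l := Real.sqrt_pos.2 lpos
  rw [div_le_iff₀ hsl]
  have h5 : (k : ℝ) ≤ 2 * √(n : ℝ) * (5 * P.card) :=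
    kle.trans (hcb.trans (mul_le_mul_of_nonneg_left hP2r (by positivity)))
  have h7 : (k : ℝ) ≤ 15 * √l * S.ncard := by
    calc (k : ℝ) ≤ 2 * √(n : ℝ) * (5 * P.card) := h5
      _ ≤ 2 * (3 / 2 * √l) * (5 * S.ncard) := by
          apply mul_le_mul _ _ (by positivity) (by positivity)
          · linarith
          · linarith
      _ = 15 * √l * S.ncard := by ring
  have h9 : 0 ≤ √l * (S.ncard : ℝ) := by positivity
  nlinarith

end Pool.Agent.H621.Near
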